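import Pool.Agent.Lib_helper76.UEG.TQ
import Pool.Agent.Lib_helper24.TN.N4

/-!
# Functions supported on the multiples of a point of order four
-/

set_option autoImplicit false
set_option linter.unusedSectionVars false
set_option linter.unusedSimpArgs false

namespace Pool.Agent.UE4

open WeierstrassCurve.Affine Polynomial UEG
open TN (Wt)

variable {k : Type*} [Field k] {F : Type*} [Field F] [Algebra k F] {t : k} {x y : F}

lemma of_UEG {b c : k} (h : UEG.Gen (Wt b c) x y) : TN.Gen b c x y := by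
  refine ⟨?_, (TN.Tr_iff x).mpr h.tr⟩
  have he : y ^ 2 + algebraMap k F (1 - c) * x * y + algebraMap k F (-b) * y =
      x ^ 3 + algebraMap k F (-b) * x ^ 2 + algebraMap k F 0 * x + algebraMap k F 0 := h.eq
  rw [map_sub, map_neg, map_one, map_zero] at he
  linear_combination he

/-- products of constants and of `x`, `x - t`, `y` -/
def Is3 (t : k) (x y f : F) : Prop :=
  ∃ (d : k) (a b c : ℤ), d ≠ 0 ∧ f = algebraMap k F d * TN.N4.M t x y a b c

lemma Is3.mul (h : TN.Gen t 0 x y) {f g : F} (hf : Is3 t x y f) (hg : Is3 t x y g) :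
    Is3 t x y (f * g) := by
  obtain ⟨c, a, b, d, hc, rfl⟩ := hf
  obtain ⟨c', a', b', d', hc', rfl⟩ := hg
  refine ⟨c * c', a + a', b + b', d + d', mul_ne_zero hc hc', ?_⟩
  unfold TN.N4.M
  rw [map_mul, zpow_add₀ h.x_ne, zpow_add₀ (h.xc_ne t), zpow_add₀ h.y_ne]
  ring

lemma Is3.inv {f : F} (hf : Is3 t x y f) : Is3 t x y f⁻¹ := by
  obtain ⟨c, a, b, d, hc, rfl⟩ := hf
  refine ⟨c⁻¹, -a, -b, -d, inv_ne_zero hc, ?_⟩
  unfold TN.N4.M
  rw [map_inv₀, zpow_neg, zpow_neg, zpow_neg]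
  simp only [mul_inv]

lemma is3_c {c : k} (hc : c ≠ 0) : Is3 t x y (algebraMap k F c) :=
  ⟨c, 0, 0, 0, hc, by unfold TN.N4.M; simp⟩

lemma is3_x : Is3 t x y x := ⟨1, 1, 0, 0, one_ne_zero, by unfold TN.N4.M; simp⟩

lemma is3_xt : Is3 t x y (x - algebraMap k F t) :=
  ⟨1, 0, 1, 0, one_ne_zero, by unfold TN.N4.M; simp⟩

lemma is3_y : Is3 t x y y := ⟨1, 0, 0, 1, one_ne_zero, by unfold TN.N4.M; simp⟩

lemma is3_l (h : TN.Gen t 0 x y) : Is3 t x y (y + x - algebraMap k F t) := by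
  have e : y + x - algebraMap k F t = x * x * (x - algebraMap k F t) * y⁻¹ := by
    rw [eq_mul_inv_iff_mul_eq₀ h.y_ne]
    have he := h.eq
    rw [map_zero] at he
    linear_combination he
  rw [e]
  exact (((is3_x.mul h is3_x).mul h is3_xt).mul h is3_y.inv)

variable [DecidableEq k]

/-- the points -/
lemma mem4 (ht : t ≠ 0) (h4 : (4 : ℕ) • P0 (0 : k) ht = 0) {a b : k}
    (h : inH (AddSubgroup.zmultiples (P0 (0 : k) ht)) a b) :
    (a = 0 ∧ b = 0) ∨ (a = t ∧ b = 0) ∨ (a = 0 ∧ b = t) := by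
  obtain ⟨h1, h2⟩ := h
  obtain ⟨n, hn, hn'⟩ := mem_zm (by norm_num : 0 < 4) h4 h2
  interval_cases n
  · rw [zero_nsmul] at hn'
    exact absurd hn'.symm (Point.some_ne_zero _)
  · rw [one_nsmul] at hn'
    unfold P0 at hn'
    simp only [Point.some.injEq] at hn'
    exact Or.inl ⟨hn'.1.symm, hn'.2.symm⟩
  · obtain ⟨h3, e3⟩ := two_P0 (c := (0 : k)) ht
    rw [e3] at hn'
    simp only [Point.some.injEq, mul_zero] at hn'
    exact Or.inr (Or.inl ⟨hn'.1.symm, hn'.2.symm⟩)
  · obtain ⟨h3, e3⟩ := three_P0 (c := (0 : k)) ht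
    rw [e3] at hn'
    simp only [Point.some.injEq, sub_zero] at hn'
    exact Or.inr (Or.inr ⟨hn'.1.symm, hn'.2.symm⟩)

theorem good4 (ht : t ≠ 0) (h4 : (4 : ℕ) • P0 (0 : k) ht = 0) (h : UEG.Gen (Wt t 0) x y) :
    Good (AddSubgroup.zmultiples (P0 (0 : k) ht)) (hR h) (Is3 t x y) := by
  have hg := of_UEG h
  refine ⟨?_, ?_, ?_, ?_, ?_⟩
  · intro c hc
    rw [hR_c]
    exact is3_c hc
  · intro f g hf hg'
    exact hf.mul hg hg'
  · intro f hf
    exact hf.inv
  · intro a b hab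
    rw [hR_sub]
    rcases mem4 ht h4 hab with ⟨ea, -⟩ | ⟨ea, -⟩ | ⟨ea, -⟩
    · rw [ea, map_zero, sub_zero]; exact is3_x
    · rw [ea]; exact is3_xt
    · rw [ea, map_zero, sub_zero]; exact is3_x
  · intro a b a' b' hab hab' hxy
    have a1 : (Wt t 0).a₁ = 1 - 0 := rfl
    have a2 : (Wt t 0).a₂ = -t := rfl
    have a4 : (Wt t 0).a₄ = 0 := rfl
    have L1 : ∀ {z : F}, z = y → Is3 t x y z := fun hz => by rw [hz]; exact is3_y
    have L2 : ∀ {z : F}, z = y + x - algebraMap k F t → Is3 t x y z :=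
      fun hz => by rw [hz]; exact is3_l hg
    rcases mem4 ht h4 hab with ⟨ea, eb⟩ | ⟨ea, eb⟩ | ⟨ea, eb⟩ <;>
      rcases mem4 ht h4 hab' with ⟨ea', eb'⟩ | ⟨ea', eb'⟩ | ⟨ea', eb'⟩ <;>
      rw [ea, eb, ea', eb'] at hxy ⊢
    · rw [line_val' h (m := 0) (by rw [negY_wt, a1, a2, a4]; ring)
        (by rw [negY_wt]; intro h'; apply ht; linear_combination -h')]
      apply L1
      simp only [map_zero, map_sub, map_one, map_neg, map_mul]
      ring
    · rw [line_val h (m := 0) (by ring) (Ne.symm ht)]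
      apply L1
      simp only [map_zero, map_sub, map_one, map_neg, map_mul]
      ring
    · exact absurd ⟨rfl, by rw [negY_wt]; ring⟩ hxy
    · rw [line_val h (m := 0) (by ring) ht]
      apply L1
      simp only [map_zero, map_sub, map_one, map_neg, map_mul]
      ring
    · exact absurd ⟨rfl, by rw [negY_wt]; ring⟩ hxy
    · rw [line_val h (m := -1) (by ring) ht]
      apply L2
      simp only [map_zero, map_sub, map_one, map_neg, map_mul]
      ring
    · exact absurd ⟨rfl, by rw [negY_wt]; ring⟩ hxy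
    · rw [line_val h (m := -1) (by ring) (Ne.symm ht)]
      apply L2
      simp only [map_zero, map_sub, map_one, map_neg, map_mul]
      ring
    · rw [line_val' h (m := -1) (by rw [negY_wt, a1, a2, a4]; ring)
        (by rw [negY_wt]; intro h'; apply ht; linear_combination h')]
      apply L2
      simp only [map_zero, map_sub, map_one, map_neg, map_mul]
      ring

lemma zpow_good {H : AddSubgroup (Wt t 0).Point} (h : UEG.Gen (Wt t 0) x y) {f : F}
    (hf : IsUn H x y f) (n : ℤ) : IsUn H x y (f ^ n) := by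
  have hG := good_IsUn (H := H) h
  have h1 : IsUn H x y (1 : F) := by
    have := hG.hc 1 one_ne_zero
    rwa [map_one, map_one] at this
  have h2 : ∀ m : ℕ, IsUn H x y (f ^ m) := by
    intro m
    induction m with
    | zero => rw [pow_zero]; exact h1
    | succ m ih => rw [pow_succ]; exact hG.hm _ _ ih hf
  obtain ⟨m, rfl | rfl⟩ := Int.eq_nat_or_neg n
  · rw [zpow_natCast]; exact h2 m
  · rw [zpow_neg, zpow_natCast]; exact hG.hi _ (h2 m)

/-- **the functions supported on the multiples of a point of order four** -/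
theorem isUn4 (ht : t ≠ 0) (h4 : (4 : ℕ) • P0 (0 : k) ht = 0) (h : UEG.Gen (Wt t 0) x y) (f : F) :
    IsUn (AddSubgroup.zmultiples (P0 (0 : k) ht)) x y f ↔ Is3 t x y f := by
  constructor
  · exact units_ind h (good4 ht h4 h)
  · rintro ⟨c, a, b, d, hc, rfl⟩
    set H := AddSubgroup.zmultiples (P0 (0 : k) ht) with hH
    have hG := good_IsUn (H := H) h
    have m1 : inH H 0 0 := ⟨ns0 ht, AddSubgroup.mem_zmultiples _⟩
    have m2 : inH H t (t * 0) := by
      obtain ⟨h3, e3⟩ := two_P0 (c := (0 : k)) ht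
      exact ⟨h3, by rw [← e3]; exact AddSubgroup.nsmul_mem_zmultiples _ _⟩
    have ux : IsUn H x y x := by
      have := hG.hx 0 0 m1
      rwa [hR_sub, map_zero, sub_zero] at this
    have uxt : IsUn H x y (x - algebraMap k F t) := by
      have := hG.hx t (t * 0) m2
      rwa [hR_sub] at this
    have a1 : (Wt t 0).a₁ = 1 - 0 := rfl
    have a2 : (Wt t 0).a₂ = -t := rfl
    have a4 : (Wt t 0).a₄ = 0 := rfl
    have uy : IsUn H x y y := by
      have hb : (0 : k) ≠ (Wt t 0).negY 0 0 := by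
        rw [negY_wt]; intro h'; apply ht; linear_combination -h'
      have := hG.hl 0 0 0 0 m1 m1 (fun h' => hb h'.2)
      rw [line_val' h (m := 0) (by rw [negY_wt, a1, a2, a4]; ring) hb] at this
      simpa using this
    have uc : IsUn H x y (algebraMap k F c) := by
      have := hG.hc c hc
      rwa [hR_c] at this
    unfold TN.N4.M
    exact hG.hm _ _ uc (hG.hm _ _ (hG.hm _ _ (zpow_good h ux a) (zpow_good h uxt b))
      (zpow_good h uy d))

/-- **every curve with a point of order four** -/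
theorem four {W : WeierstrassCurve.Affine k} {p₁ p₂ : k} (hP : W.Nonsingular p₁ p₂)
    (h : addOrderOf (Point.some p₁ p₂ hP) = 4) {X Y : F} (hg : UEG.Gen W X Y) :
    ∃ (t u s : k), t ≠ 0 ∧ Chg W (Wt t 0) u p₁ s p₂ ∧
      TN.Gen t 0 (nx F u p₁ X) (ny F u p₁ s p₂ X Y) ∧
      ∀ f : F, IsUn (AddSubgroup.zmultiples (Point.some p₁ p₂ hP)) X Y f ↔
        Is3 t (nx F u p₁ X) (ny F u p₁ s p₂ X Y) f := by
  obtain ⟨b, c, u, s, hb, hC, hN, hH⟩ := tate_of_order hP le_rfl h
  have h4 : (4 : ℕ) • P0 c hb = 0 := by rw [← hN]; exact addOrderOf_nsmul_eq_zero _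
  obtain rfl : c = 0 := c_of_four hb h4
  refine ⟨b, u, s, hb, hC, of_UEG (hC.gen hg), fun f => ?_⟩
  rw [hC.IsUn_iff, hH]
  exact isUn4 hb h4 (hC.gen hg) f

end Pool.Agent.UE4
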