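import Pool.Agent.Lib_helper76.UE5.G
import Pool.Agent.Lib_helper24.TN.N4U

/-!
# The unit equation for a point of order five, VII: the form used for the closed elements
-/

set_option autoImplicit false

namespace Pool.Agent.UE5


variable {k : Type*} [Field k] {F : Type*} [Field F] [Algebra k F] {t : k} {x y : F}

lemma of_TN (h : TN.Gen t t x y) : Gen t x y := ⟨h.eq, (TN.Tr_iff x).mp h.tr⟩

lemma to_TN (h : Gen t x y) : TN.Gen t t x y := ⟨h.eq, (TN.Tr_iff x).mpr h.tr⟩

/-- the monomials in `x`, `x - t`, `y`, `y - t x` -/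
def M4 (t : k) (x y : F) (a b c d : ℤ) : F :=
  x ^ a * (x - algebraMap k F t) ^ b * y ^ c * (y - algebraMap k F t * x) ^ d

/-- the five functions `t/x(z + 2 j P)` -/
def vv (t : k) (x y : F) : Fin 5 → F :=
  ![algebraMap k F t / x,
    y * (x - algebraMap k F t) / (x * (y - algebraMap k F t * x)),
    -y / (x - algebraMap k F t), x ^ 2 / y, (y - algebraMap k F t * x) / y]

/-- the five translates of `y` (for `t = 1`) -/
noncomputable def yy (t : k) (x y : F) (i : Fin 5) : F := X t x y (i + 1) * X t x y i ^ 2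

/-- the five translates of `-(y - t x)` (for `t = -1`) -/
noncomputable def ww (t : k) (x y : F) (i : Fin 5) : F := -(X t x y (i + 1) * X t x y i ^ 2 / X t x y (i + 3))

lemma orb_inv {u f : F} (hu : u ≠ 0) (h : S3 f u) : TN.Orb u⁻¹ f := by
  unfold TN.Orb
  rcases h with h | h | h | h | h | h
  · right; right; left; rw [h, one_div, inv_inv]
  · right; right; right; left; rw [h, one_div, inv_inv]
  · left; rw [h, one_div]
  · right; left; rw [h, one_div]
  · right; right; right; right; right
    rw [h]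
    rcases eq_or_ne u 1 with rfl | h1
    · simp
    · have h2 : 1 - u ≠ 0 := fun h' => h1 (by linear_combination -h')
      have h3 : u⁻¹ - 1 ≠ 0 := by
        intro h'
        apply h1
        have : u⁻¹ = 1 := by linear_combination h'
        rw [← inv_inv u, this, inv_one]
      rw [div_eq_div_iff h2 h3]
      field_simp
  · right; right; right; right; left
    rw [h]
    rcases eq_or_ne u 1 with rfl | h1
    · simp
    · have h2 : u - 1 ≠ 0 := fun h' => h1 (by linear_combination h')
      have h3 : 1 - u⁻¹ ≠ 0 := by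
        intro h'
        apply h1
        have : u⁻¹ = 1 := by linear_combination -h'
        rw [← inv_inv u, this, inv_one]
      rw [div_eq_div_iff h2 h3]
      field_simp

lemma vv_eq (ht : t ≠ 0) (h : Gen t x y) (j : Fin 5) :
    vv t x y j = (X t x y (2 * j) / algebraMap k F t)⁻¹ := by
  have hT : algebraMap k F t ≠ 0 := (_root_.map_ne_zero _).mpr ht
  have h1 := h.x_ne
  have h2 := h.xt_ne
  have h3 := h.y_ne
  have h4 := h.ytx_ne
  fin_cases j
  · show algebraMap k F t / x = (x / algebraMap k F t)⁻¹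
    rw [inv_div]
  · show y * (x - algebraMap k F t) / (x * (y - algebraMap k F t * x)) =
      (algebraMap k F t * x * (y - algebraMap k F t * x) / (y * (x - algebraMap k F t)) /
        algebraMap k F t)⁻¹
    field_simp
  · show -y / (x - algebraMap k F t) = (-(algebraMap k F t * (x - algebraMap k F t)) / y /
        algebraMap k F t)⁻¹
    rw [inv_div]
    field_simp
  · show x ^ 2 / y = (algebraMap k F t * y / x ^ 2 / algebraMap k F t)⁻¹
    rw [inv_div]
    field_simp
  · show (y - algebraMap k F t * x) / y = (algebraMap k F t * y / (y - algebraMap k F t * x) /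
        algebraMap k F t)⁻¹
    rw [inv_div]
    field_simp

/-- **the unit equation for a point of order five** -/
theorem unit_eq4 [CharZero k] (ht : t ≠ 0) (h : Gen t x y) {c₀ c₁ : k} (h0 : c₀ ≠ 0)
    (h1 : c₁ ≠ 0) {a b c d a' b' c' d' : ℤ}
    (hu : algebraMap k F c₀ * M4 t x y a b c d + algebraMap k F c₁ * M4 t x y a' b' c' d' = 1) :
    (∃ s : k, algebraMap k F c₀ * M4 t x y a b c d = algebraMap k F s) ∨
      (∃ j, TN.Orb (vv t x y j) (algebraMap k F c₀ * M4 t x y a b c d)) ∨
      (t = 1 ∧ ∃ j, TN.Orb (yy t x y j) (algebraMap k F c₀ * M4 t x y a b c d)) ∨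
      (t = -1 ∧ ∃ j, TN.Orb (ww t x y j) (algebraMap k F c₀ * M4 t x y a b c d)) := by
  have hT : algebraMap k F t ≠ 0 := (_root_.map_ne_zero _).mpr ht
  have nz : ∀ n m : ℤ, t ^ n * ((-1 : k)) ^ m ≠ 0 := fun n m =>
    mul_ne_zero (zpow_ne_zero _ ht) (zpow_ne_zero _ (neg_ne_zero.mpr one_ne_zero))
  have key : ∀ (c₀ : k) (a b c d : ℤ), algebraMap k F c₀ * M4 t x y a b c d =
      algebraMap k F (c₀ * (t ^ ((b + c + 2 * d) + d + 0 + (b + d)) * (-1) ^ (b + d))⁻¹) *
        mon t x y ![a + 2 * b + 2 * c + 3 * d, b + c + 2 * d, d, 0, b + d] := by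
    intro c₀ a b c d
    rw [mon_mo' ht h]
    have hn := (_root_.map_ne_zero (algebraMap k F)).mpr
      (nz ((b + c + 2 * d) + d + 0 + (b + d)) (b + d))
    show _ = algebraMap k F (c₀ * (t ^ ((b + c + 2 * d) + d + 0 + (b + d)) * (-1) ^ (b + d))⁻¹) *
      (algebraMap k F (t ^ ((b + c + 2 * d) + d + 0 + (b + d)) * (-1) ^ (b + d)) *
      (x ^ (a + 2 * b + 2 * c + 3 * d - 2 * (b + c + 2 * d) + d) *
        (x - algebraMap k F t) ^ (-d + (b + d)) *
        y ^ (b + c + 2 * d - d + 0 - (b + d)) * (y - algebraMap k F t * x) ^ (d - 0)))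
    rw [map_mul, map_inv₀]
    rw [show a + 2 * b + 2 * c + 3 * d - 2 * (b + c + 2 * d) + d = a by ring,
      show -d + (b + d) = b by ring, show b + c + 2 * d - d + 0 - (b + d) = c by ring, sub_zero]
    unfold M4
    generalize algebraMap k F (t ^ (b + c + 2 * d + d + 0 + (b + d)) * (-1) ^ (b + d)) = w at hn ⊢
    field_simp
  have hu' := hu
  rw [key c₀, key c₁] at hu'
  have hk := unit_eq ht h _ _ _ _ (mul_ne_zero h0 (inv_ne_zero (nz _ _)))
    (mul_ne_zero h1 (inv_ne_zero (nz _ _))) hu'
  rw [← key c₀] at hk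
  rcases hk with hk | ⟨i, hk | ⟨h1, hk⟩ | ⟨h1, hk⟩⟩
  · exact Or.inl hk
  · right; left
    have hi : ∀ i : Fin 5, ∃ j : Fin 5, 2 * j = i := by decide
    obtain ⟨j, rfl⟩ := hi i
    refine ⟨j, ?_⟩
    rw [vv_eq ht h]
    exact orb_inv (div_ne_zero (X_ne ht h _) hT) hk
  · right; right; left
    exact ⟨h1, i, hk⟩
  · right; right; right
    exact ⟨h1, i, hk⟩

/-- a monomial is constant only if the exponents vanish -/
lemma M4_const [CharZero k] (ht : t ≠ 0) (h : Gen t x y) {a b c d : ℤ} {s : k}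
    (hM : M4 t x y a b c d = algebraMap k F s) : a = 0 ∧ b = 0 ∧ c = 0 ∧ d = 0 := by
  by_contra hne
  apply dv_mo_ne ht hne
  have h1 : (mo a b c d : (E t).FunctionField) = UEG.cK s := by
    apply UEG.io_inj h.toG
    rw [io_mo h, UEG.io_c]
    exact hM
  rw [h1, UEG.dv_c]

end Pool.Agent.UE5
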