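import Pool.Agent.Lib_helper76.UEG.C

/-!
# The unit equation for a point of order five, I: the bound

`E_t : y² + (1-t) x y - t y = x³ - t x²`, `P = (0,0)` of order five.
-/

set_option autoImplicit false
set_option linter.unusedSectionVars false

namespace Pool.Agent.UE5

open Polynomial WeierstrassCurve.Affine WithZero UEG

variable {k : Type*} [Field k]

/-- the curves with a point of order five -/
def E (t : k) : WeierstrassCurve.Affine k := ⟨1 - t, -t, -t, 0, 0⟩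

section field

variable {t : k}

/-- the constant `t` -/
noncomputable def tK : (E t).FunctionField := cK t

lemma eq5 : (yK : (E t).FunctionField) ^ 2 + (1 - tK) * xK * yK - tK * yK =
    xK ^ 3 - tK * xK ^ 2 := by
  have h : (yK : (E t).FunctionField) ^ 2 + cK (1 - t) * xK * yK + cK (-t) * yK =
    xK ^ 3 + cK (-t) * xK ^ 2 + cK 0 * xK + cK 0 := eqK
  rw [map_sub, map_one, map_neg, map_zero] at h
  unfold tK
  linear_combination h

lemma tK_ne (ht : t ≠ 0) : (tK : (E t).FunctionField) ≠ 0 := ne_of_v (i := 0) (v_c ht)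

lemma xt_ne : (xK - tK : (E t).FunctionField) ≠ 0 := ne_of_v (v_x_sub t)

lemma v_ytx : v (W := E t) (yK - tK * xK) = exp 3 := by
  have := v_line (W := E t) t 0
  rwa [map_zero, sub_zero] at this

lemma ytx_ne : (yK - tK * xK : (E t).FunctionField) ≠ 0 := ne_of_v v_ytx

/-- the monomials in the four units -/
noncomputable def mo (a b c d : ℤ) : (E t).FunctionField :=
  xK ^ a * (xK - tK) ^ b * yK ^ c * (yK - tK * xK) ^ d

lemma v_mo (a b c d : ℤ) :
    v (W := E t) (mo a b c d) = exp (2 * a + 2 * b + 3 * c + 3 * d) := by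
  unfold mo
  have h1 : v (W := E t) (xK - tK) = exp 2 := v_x_sub t
  rw [map_mul, map_mul, map_mul, map_zpow₀, map_zpow₀, map_zpow₀, map_zpow₀, v_x, h1, v_y, v_ytx,
    ← exp_zsmul, ← exp_zsmul, ← exp_zsmul, ← exp_zsmul, ← exp_add, ← exp_add, ← exp_add]
  congr 1
  simp only [smul_eq_mul]
  ring

lemma mo_ne (a b c d : ℤ) : (mo a b c d : (E t).FunctionField) ≠ 0 := ne_of_v (v_mo a b c d)

/-- the polynomial -/
noncomputable def N5 (n₀ n₁ n₂ n₃ n₄ : k) : (E t).FunctionField :=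
  inc ((C n₀ + C n₁ * X + C n₃ * X ^ 2) • (1 : (E t).CoordinateRing) +
    (C n₂ + C n₄ * X) • CoordinateRing.mk (E t) X)

lemma N5_eq (n₀ n₁ n₂ n₃ n₄ : k) : (N5 n₀ n₁ n₂ n₃ n₄ : (E t).FunctionField) =
    cK n₀ + cK n₁ * xK + cK n₂ * yK + cK n₃ * xK ^ 2 + cK n₄ * (xK * yK) := by
  unfold N5
  rw [inc_basis]
  simp only [eval₂_add, eval₂_mul, eval₂_C, eval₂_X, eval₂_pow]
  ring

lemma dx5 : (dx : (E t).FunctionField) = 2 * yK + (1 - tK) * xK - tK := by
  have h : (dx : (E t).FunctionField) = 2 * yK + cK (1 - t) * xK + cK (-t) := rfl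
  rw [h, map_sub, map_one, map_neg]
  unfold tK
  ring

lemma dy5 : (dy : (E t).FunctionField) = 3 * xK ^ 2 - 2 * tK * xK - (1 - tK) * yK := by
  have h : (dy : (E t).FunctionField) =
    3 * xK ^ 2 + 2 * cK (-t) * xK + cK 0 - cK (1 - t) * yK := rfl
  rw [h, map_sub, map_one, map_neg, map_zero]
  unfold tK
  ring

/-- the logarithmic derivative of a monomial -/
lemma ld_mo (a b c d : ℤ) : xK * (xK - tK) * ld (mo a b c d : (E t).FunctionField) =
    N5 (t ^ 2 * ((a : k) + 2 * c + d))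
      ((t ^ 2 - 2 * t) * (a : k) - t * b + (t ^ 2 - 4 * t) * c + (t ^ 2 - 3 * t) * d)
      (-t * (2 * (a : k) + 2 * c + d))
      ((1 - t) * ((a : k) + b + 2 * c) + (2 - t) * d)
      (2 * (a : k) + 2 * b + 3 * c + 3 * d) := by
  have hx := UEG.x_ne (W := E t)
  have hx1 := xt_ne (t := t)
  have hy := UEG.y_ne (W := E t)
  have hxy := ytx_ne (t := t)
  have he := eq5 (t := t)
  have dxt : dv (xK - tK : (E t).FunctionField) = 2 * yK + (1 - tK) * xK - tK := by
    rw [dv_sub, dv_x, show dv (tK : (E t).FunctionField) = 0 from dv_c t, dx5, sub_zero]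
  have dyt : dv (yK - tK * xK : (E t).FunctionField) =
      3 * xK ^ 2 - 2 * tK * xK - (1 - tK) * yK - tK * (2 * yK + (1 - tK) * xK - tK) := by
    rw [dv_sub, dv_mul, dv_x, dv_y, show dv (tK : (E t).FunctionField) = 0 from dv_c t, dx5, dy5]
    ring
  have e : ld (mo a b c d : (E t).FunctionField) =
      (a : (E t).FunctionField) * ((2 * yK + (1 - tK) * xK - tK) / xK) +
      (b : (E t).FunctionField) * ((2 * yK + (1 - tK) * xK - tK) / (xK - tK)) +
      (c : (E t).FunctionField) * ((3 * xK ^ 2 - 2 * tK * xK - (1 - tK) * yK) / yK) +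
      (d : (E t).FunctionField) * ((3 * xK ^ 2 - 2 * tK * xK - (1 - tK) * yK -
        tK * (2 * yK + (1 - tK) * xK - tK)) / (yK - tK * xK)) := by
    unfold mo
    rw [ld_mul (mul_ne_zero (mul_ne_zero (zpow_ne_zero _ hx) (zpow_ne_zero _ hx1))
      (zpow_ne_zero _ hy)) (zpow_ne_zero _ hxy),
      ld_mul (mul_ne_zero (zpow_ne_zero _ hx) (zpow_ne_zero _ hx1)) (zpow_ne_zero _ hy),
      ld_mul (zpow_ne_zero _ hx) (zpow_ne_zero _ hx1), ld_zpow hx, ld_zpow hx1, ld_zpow hy,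
      ld_zpow hxy]
    unfold ld
    rw [dxt, dyt, dv_x, dv_y, dx5, dy5]
  have e1 : xK * (xK - tK) * ((2 * yK + (1 - tK) * xK - tK) / xK) =
      (xK - tK) * (2 * yK + (1 - tK) * xK - tK : (E t).FunctionField) := by
    field_simp
  have e2 : xK * (xK - tK) * ((2 * yK + (1 - tK) * xK - tK) / (xK - tK)) =
      xK * (2 * yK + (1 - tK) * xK - tK : (E t).FunctionField) := by
    field_simp
  have e3 : xK * (xK - tK) * ((3 * xK ^ 2 - 2 * tK * xK - (1 - tK) * yK) / yK) =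
      (3 * xK - 2 * tK) * (yK + (1 - tK) * xK - tK) -
        (1 - tK) * xK * (xK - tK : (E t).FunctionField) := by
    rw [← mul_div_assoc, div_eq_iff hy]
    linear_combination (-3 * xK + 2 * tK) * he
  have e4 : xK * (xK - tK) * ((3 * xK ^ 2 - 2 * tK * xK - (1 - tK) * yK -
        tK * (2 * yK + (1 - tK) * xK - tK)) / (yK - tK * xK)) =
      (2 - tK) * xK ^ 2 + 3 * xK * yK + (tK ^ 2 - 3 * tK) * xK - tK * yK +
        (tK ^ 2 : (E t).FunctionField) := by
    rw [← mul_div_assoc, div_eq_iff hxy]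
    linear_combination (-3 * xK + tK) * he
  have hc : ∀ n : ℤ, (cK ((n : k)) : (E t).FunctionField) = n := fun n => map_intCast _ n
  have hT : (cK t : (E t).FunctionField) = tK := rfl
  rw [e, N5_eq]
  simp only [map_sub, map_add, map_mul, map_neg, map_pow, map_one, hc, hT, map_ofNat]
  linear_combination (a : (E t).FunctionField) * e1 + (b : (E t).FunctionField) * e2 +
    (c : (E t).FunctionField) * e3 + (d : (E t).FunctionField) * e4

lemma N5_zero {n₀ n₁ n₂ n₃ n₄ : k} (h : (N5 n₀ n₁ n₂ n₃ n₄ : (E t).FunctionField) = 0) :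
    n₀ = 0 ∧ n₁ = 0 ∧ n₂ = 0 ∧ n₃ = 0 ∧ n₄ = 0 := by
  have h1 := CoordinateRing.smul_basis_eq_zero (inc_injective (h.trans (map_zero _).symm))
  have c0 : ∀ i, (C n₀ + C n₁ * X + C n₃ * X ^ 2 : k[X]).coeff i = 0 :=
    fun i => by rw [h1.1, coeff_zero]
  have c1 : ∀ i, (C n₂ + C n₄ * X : k[X]).coeff i = 0 := fun i => by rw [h1.2, coeff_zero]
  have a0 := c0 0
  have a1 := c0 1
  have a2 := c0 2
  have b0 := c1 0
  have b1 := c1 1
  simp [coeff_X, coeff_C] at a0 a1 a2 b0 b1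
  exact ⟨a0, a1, b0, a2, b1⟩

/-- the logarithmic derivative of a monomial is not zero -/
lemma dv_mo_ne [CharZero k] (ht : t ≠ 0) {a b c d : ℤ} (h : ¬ (a = 0 ∧ b = 0 ∧ c = 0 ∧ d = 0)) :
    dv (mo a b c d : (E t).FunctionField) ≠ 0 := by
  intro h0
  apply h
  have h1 : (N5 (t ^ 2 * ((a : k) + 2 * c + d))
      ((t ^ 2 - 2 * t) * (a : k) - t * b + (t ^ 2 - 4 * t) * c + (t ^ 2 - 3 * t) * d)
      (-t * (2 * (a : k) + 2 * c + d))
      ((1 - t) * ((a : k) + b + 2 * c) + (2 - t) * d)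
      (2 * (a : k) + 2 * b + 3 * c + 3 * d) : (E t).FunctionField) = 0 := by
    rw [← ld_mo]
    unfold ld
    rw [h0, zero_div, mul_zero]
  obtain ⟨i0, i1, i2, i3, i4⟩ := N5_zero h1
  have j0 : (a : k) + 2 * c + d = 0 := (mul_eq_zero.mp i0).resolve_left (pow_ne_zero 2 ht)
  have j2 : 2 * (a : k) + 2 * c + d = 0 := (mul_eq_zero.mp i2).resolve_left (neg_ne_zero.mpr ht)
  have ja : (a : k) = 0 := by linear_combination j2 - j0
  have jd : (d : k) = -2 * c := by linear_combination j0 - ja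
  have jb : 2 * (b : k) = 3 * c := by linear_combination i4 - 2 * ja - 3 * jd
  have j1 : (t - 2) * (a : k) - b + (t - 4) * c + (t - 3) * d = 0 := by
    apply (mul_eq_zero.mp (show t * ((t - 2) * (a : k) - b + (t - 4) * c + (t - 3) * d) = 0 by
      linear_combination i1)).resolve_left ht
  have jc : 5 * (c : k) = 0 := by
    have k1 : (1 - 2 * t) * (c : k) = 0 := by
      linear_combination 2 * j1 - 2 * (t - 2) * ja - 2 * (t - 3) * jd + jb
    have k2 : (-1 - 3 * t) * (c : k) = 0 := by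
      linear_combination 2 * i3 - 2 * (1 - t) * ja - 2 * (2 - t) * jd - (1 - t) * jb
    linear_combination 3 * k1 - 2 * k2
  have jc' : (c : k) = 0 := (mul_eq_zero.mp jc).resolve_left (by norm_num)
  have jb' : (b : k) = 0 := by
    have : 2 * (b : k) = 0 := by rw [jb, jc']; ring
    exact (mul_eq_zero.mp this).resolve_left (by norm_num)
  have jd' : (d : k) = 0 := by rw [jd, jc']; ring
  exact ⟨by exact_mod_cast ja, by exact_mod_cast jb', by exact_mod_cast jc',
    by exact_mod_cast jd'⟩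

/-- **the bound at one point** -/
theorem GL_K [CharZero k] (ht : t ≠ 0) {c₀ c₁ : k} (h0 : c₀ ≠ 0) (h1 : c₁ ≠ 0)
    {a b c d a' b' c' d' : ℤ}
    (h : (cK c₀ * mo a b c d + cK c₁ * mo a' b' c' d' : (E t).FunctionField) = 1) {n n' : ℤ}
    (hn : n = 2 * a + 2 * b + 3 * c + 3 * d) (hn' : n' = 2 * a' + 2 * b' + 3 * c' + 3 * d') :
    (a = 0 ∧ b = 0 ∧ c = 0 ∧ d = 0) ∨ (n = n' ∧ 1 ≤ n ∧ n ≤ 5) ∨ (n = 0 ∧ n' = 0) ∨
      (-5 ≤ n ∧ n ≤ -1 ∧ n' = 0) ∨ (n = 0 ∧ -5 ≤ n' ∧ n' ≤ -1) := by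
  by_cases hz : a = 0 ∧ b = 0 ∧ c = 0 ∧ d = 0
  · exact Or.inl hz
  right
  have hc0 : (cK c₀ : (E t).FunctionField) ≠ 0 := ne_of_v (i := 0) (v_c h0)
  have hc1 : (cK c₁ : (E t).FunctionField) ≠ 0 := ne_of_v (i := 0) (v_c h1)
  have vf : v (W := E t) (cK c₀ * mo a b c d) = exp n := by
    rw [map_mul, v_c h0, one_mul, v_mo, hn]
  have vg : v (W := E t) (cK c₁ * mo a' b' c' d') = exp n' := by
    rw [map_mul, v_c h1, one_mul, v_mo, hn']
  have hQ : v (W := E t) (xK * (xK - tK)) = exp 4 := by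
    rw [map_mul, v_x, show v (W := E t) (xK - tK) = exp 2 from v_x_sub t, ← exp_add]
    norm_num
  have lf : ld (cK c₀ * mo a b c d : (E t).FunctionField) = ld (mo a b c d) := by
    rw [ld_mul hc0 (mo_ne _ _ _ _), ld_c, zero_add]
  have lg : ld (cK c₁ * mo a' b' c' d' : (E t).FunctionField) = ld (mo a' b' c' d') := by
    rw [ld_mul hc1 (mo_ne _ _ _ _), ld_c, zero_add]
  have hd : dv (cK c₀ * mo a b c d : (E t).FunctionField) ≠ 0 := by
    rw [dv_mul, dv_c, mul_zero, add_zero]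
    exact mul_ne_zero hc0 (dv_mo_ne ht hz)
  have key := bound_K (mul_ne_zero hc0 (mo_ne _ _ _ _)) (mul_ne_zero hc1 (mo_ne _ _ _ _)) h hd
    (by rw [lf]; exact ld_mo a b c d) (by rw [lg]; exact ld_mo a' b' c' d') hQ vf vg
  simpa using key

end field

end Pool.Agent.UE5
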