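import Pool.Agent.Lib_helper76.UE5.A

/-!
# The unit equation for a point of order five, II: abstract fields, all five points
-/

set_option autoImplicit false
set_option linter.unusedSectionVars false

namespace Pool.Agent.UE5

open Polynomial WeierstrassCurve.Affine WithZero UEG

variable {k : Type*} [Field k] {F : Type*} [Field F] [Algebra k F]

/-- a generic point of the curve `y² + (1-t) x y - t y = x³ - t x²` -/
structure Gen (t : k) {F : Type*} [Field F] [Algebra k F] (x y : F) : Prop where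
  eq : y ^ 2 + (1 - algebraMap k F t) * x * y - algebraMap k F t * y =
    x ^ 3 - algebraMap k F t * x ^ 2
  tr : Transcendental k x

lemma Gen.toG {t : k} {x y : F} (h : Gen t x y) : UEG.Gen (E t) x y := by
  refine ⟨?_, h.tr⟩
  show y ^ 2 + algebraMap k F (1 - t) * x * y + algebraMap k F (-t) * y =
    x ^ 3 + algebraMap k F (-t) * x ^ 2 + algebraMap k F 0 * x + algebraMap k F 0
  rw [map_sub, map_one, map_neg, map_zero]
  linear_combination h.eq

section pts

variable {t : k} {x y : F}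

lemma Gen.x_ne (h : Gen t x y) : x ≠ 0 := h.toG.x_ne

lemma Gen.xt_ne (h : Gen t x y) : x - algebraMap k F t ≠ 0 := h.toG.x_sub_ne t

lemma Gen.y_ne (h : Gen t x y) : y ≠ 0 := h.toG.y_ne

lemma Gen.ytx_ne (h : Gen t x y) : y - algebraMap k F t * x ≠ 0 := by
  have := h.toG.line_ne t 0
  rwa [map_zero, sub_zero] at this

/-- linear independence of `1, x, y, x², x y` over `k` -/
theorem Gen.ind (h : Gen t x y) {n₀ n₁ n₂ n₃ n₄ : k}
    (h0 : algebraMap k F n₀ + algebraMap k F n₁ * x + algebraMap k F n₂ * y +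
      algebraMap k F n₃ * x ^ 2 + algebraMap k F n₄ * (x * y) = 0) :
    n₀ = 0 ∧ n₁ = 0 ∧ n₂ = 0 ∧ n₃ = 0 ∧ n₄ = 0 := by
  have h1 := h.toG.ind (p := C n₀ + C n₁ * X + C n₃ * X ^ 2) (q := C n₂ + C n₄ * X) (by
    simp only [eval₂_add, eval₂_mul, eval₂_C, eval₂_X, eval₂_pow]
    linear_combination h0)
  have c0 : ∀ i, (C n₀ + C n₁ * X + C n₃ * X ^ 2 : k[X]).coeff i = 0 :=
    fun i => by rw [h1.1, coeff_zero]
  have c1 : ∀ i, (C n₂ + C n₄ * X : k[X]).coeff i = 0 := fun i => by rw [h1.2, coeff_zero]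
  have a0 := c0 0
  have a1 := c0 1
  have a2 := c0 2
  have b0 := c1 0
  have b1 := c1 1
  simp [coeff_X, coeff_C] at a0 a1 a2 b0 b1
  exact ⟨a0, a1, b0, a2, b1⟩

lemma Gen.e1 (h : Gen t x y) : x ^ 2 - y =
    y * (y - algebraMap k F t * x) / (x - algebraMap k F t) := by
  rw [eq_div_iff h.xt_ne]; linear_combination -h.eq

lemma Gen.h5 (h : Gen t x y) : x ^ 2 - y ≠ 0 := by
  rw [h.e1]; exact div_ne_zero (mul_ne_zero h.y_ne h.ytx_ne) h.xt_ne

lemma Gen.e2 (h : Gen t x y) : x ^ 2 - y - x * y =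
    -(y ^ 2 * (y - algebraMap k F t * x)) / (x - algebraMap k F t) ^ 2 := by
  rw [eq_div_iff (pow_ne_zero 2 h.xt_ne)]
  linear_combination (-x + y + algebraMap k F t) * h.eq

lemma Gen.h6 (h : Gen t x y) : x ^ 2 - y - x * y ≠ 0 := by
  rw [h.e2]
  exact div_ne_zero (neg_ne_zero.mpr (mul_ne_zero (pow_ne_zero 2 h.y_ne) h.ytx_ne))
    (pow_ne_zero 2 h.xt_ne)

/-- the next point -/
theorem Gen.next (ht : t ≠ 0) (h : Gen t x y) : Gen t (algebraMap k F t * y / x ^ 2)
    (algebraMap k F t ^ 2 * (x ^ 2 - y) / x ^ 3) := by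
  have hx := h.x_ne
  have hT : algebraMap k F t ≠ 0 := (_root_.map_ne_zero _).mpr ht
  constructor
  · have he := h.eq
    field_simp
    linear_combination (x ^ 2 - y) * he
  · intro hz
    apply h.tr
    obtain ⟨z, hzd⟩ : ∃ z : F, z = algebraMap k F t * y / x ^ 2 := ⟨_, rfl⟩
    rw [← hzd] at hz
    have hy : algebraMap k F t * y = z * x ^ 2 := by rw [hzd]; field_simp
    have hz0 : z ≠ 0 := by
      rw [hzd]; exact div_ne_zero (mul_ne_zero hT h.y_ne) (pow_ne_zero 2 hx)
    have key : z ^ 2 * x ^ 2 + (algebraMap k F t * (1 - algebraMap k F t) * z -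
        algebraMap k F t ^ 2) * x + algebraMap k F t ^ 2 * (algebraMap k F t - z) = 0 := by
      apply (mul_eq_zero.mp (show x ^ 2 * (z ^ 2 * x ^ 2 + (algebraMap k F t *
        (1 - algebraMap k F t) * z - algebraMap k F t ^ 2) * x + algebraMap k F t ^ 2 *
        (algebraMap k F t - z)) = 0 by
          linear_combination algebraMap k F t ^ 2 * h.eq - (algebraMap k F t * y + z * x ^ 2 +
            algebraMap k F t * (1 - algebraMap k F t) * x - algebraMap k F t ^ 2) *
            hy)).resolve_left (pow_ne_zero 2 hx)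
    let A := algebraicClosure k F
    have hzA : z ∈ A := mem_algebraicClosure_iff.mpr hz
    have htA : algebraMap k F t ∈ A := A.algebraMap_mem t
    let zA : A := ⟨z, hzA⟩
    let tA : A := ⟨algebraMap k F t, htA⟩
    have hA : IsAlgebraic A x := by
      refine ⟨C (zA ^ 2) * X ^ 2 + C (tA * (1 - tA) * zA - tA ^ 2) * X + C (tA ^ 2 * (tA - zA)),
        ?_, ?_⟩
      · intro h0
        have h1 := congrArg (fun p => coeff p 2) h0
        simp only [coeff_add, coeff_C_mul, coeff_X_pow, coeff_X, coeff_C, coeff_zero] at h1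
        norm_num at h1
        apply hz0
        exact congrArg Subtype.val h1
      · simp only [map_add, map_mul, map_pow, aeval_C, aeval_X]
        exact key
    exact hA.restrictScalars k

end pts

/-! ### the basis of the units -/

/-- the five units `x(z + iP)` -/
noncomputable def X (t : k) (x y : F) : Fin 5 → F :=
  ![x, algebraMap k F t * y / x ^ 2,
    algebraMap k F t * x * (y - algebraMap k F t * x) / (y * (x - algebraMap k F t)),
    algebraMap k F t * y / (y - algebraMap k F t * x),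
    -(algebraMap k F t * (x - algebraMap k F t)) / y]

/-- the monomials -/
noncomputable def mon (t : k) (x y : F) (e : Fin 5 → ℤ) : F := ∏ i, X t x y i ^ e i

/-- the order at the `i`-th point -/
def mm (e : Fin 5 → ℤ) (i : Fin 5) : ℤ := e (i + 1) + e (i - 1) - 2 * e i

section

variable {t : k} {x y : F}

lemma mon_eq (t : k) (x y : F) (e : Fin 5 → ℤ) : mon t x y e = x ^ e 0 *
    (algebraMap k F t * y / x ^ 2) ^ e 1 *
    (algebraMap k F t * x * (y - algebraMap k F t * x) / (y * (x - algebraMap k F t))) ^ e 2 *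
    (algebraMap k F t * y / (y - algebraMap k F t * x)) ^ e 3 *
    (-(algebraMap k F t * (x - algebraMap k F t)) / y) ^ e 4 := by
  unfold mon
  rw [Fin.prod_univ_five]
  rfl

lemma X_ne (ht : t ≠ 0) (h : Gen t x y) (i : Fin 5) : X t x y i ≠ 0 := by
  have hT : algebraMap k F t ≠ 0 := (_root_.map_ne_zero _).mpr ht
  have h1 := h.x_ne
  have h2 := h.xt_ne
  have h3 := h.y_ne
  have h4 := h.ytx_ne
  fin_cases i
  · exact h1
  · exact div_ne_zero (mul_ne_zero hT h3) (pow_ne_zero 2 h1)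
  · exact div_ne_zero (mul_ne_zero (mul_ne_zero hT h1) h4) (mul_ne_zero h3 h2)
  · exact div_ne_zero (mul_ne_zero hT h3) h4
  · exact div_ne_zero (neg_ne_zero.mpr (mul_ne_zero hT h2)) h3

lemma mon_ne (ht : t ≠ 0) (h : Gen t x y) (e : Fin 5 → ℤ) : mon t x y e ≠ 0 :=
  Finset.prod_ne_zero_iff.mpr fun i _ => zpow_ne_zero _ (X_ne ht h i)

/-- translation to the next point -/
lemma X_next (ht : t ≠ 0) (h : Gen t x y) (i : Fin 5) :
    X t (algebraMap k F t * y / x ^ 2) (algebraMap k F t ^ 2 * (x ^ 2 - y) / x ^ 3) i =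
      X t x y (i + 1) := by
  have hT : algebraMap k F t ≠ 0 := (_root_.map_ne_zero _).mpr ht
  have h1 := h.x_ne
  have h2 := h.xt_ne
  have h3 := h.y_ne
  have h4 := h.ytx_ne
  have h5 := h.h5
  have h6 := h.h6
  have e1 := h.e1
  have e2 := h.e2
  have g1 : algebraMap k F t ^ 2 * (x ^ 2 - y) / x ^ 3 - algebraMap k F t *
      (algebraMap k F t * y / x ^ 2) = algebraMap k F t ^ 2 * (x ^ 2 - y - x * y) / x ^ 3 := by
    field_simp
  have g2 : algebraMap k F t * y / x ^ 2 - algebraMap k F t =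
      -(algebraMap k F t * (x ^ 2 - y)) / x ^ 2 := by
    field_simp
    ring
  fin_cases i
  · rfl
  · show algebraMap k F t * (algebraMap k F t ^ 2 * (x ^ 2 - y) / x ^ 3) /
      (algebraMap k F t * y / x ^ 2) ^ 2 = algebraMap k F t * x * (y - algebraMap k F t * x) /
        (y * (x - algebraMap k F t))
    rw [e1]
    field_simp
  · show algebraMap k F t * (algebraMap k F t * y / x ^ 2) *
      (algebraMap k F t ^ 2 * (x ^ 2 - y) / x ^ 3 - algebraMap k F t *
        (algebraMap k F t * y / x ^ 2)) /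
      (algebraMap k F t ^ 2 * (x ^ 2 - y) / x ^ 3 *
        (algebraMap k F t * y / x ^ 2 - algebraMap k F t)) =
      algebraMap k F t * y / (y - algebraMap k F t * x)
    rw [g1, g2, e2, e1]
    field_simp
  · show algebraMap k F t * (algebraMap k F t ^ 2 * (x ^ 2 - y) / x ^ 3) /
      (algebraMap k F t ^ 2 * (x ^ 2 - y) / x ^ 3 - algebraMap k F t *
        (algebraMap k F t * y / x ^ 2)) = -(algebraMap k F t * (x - algebraMap k F t)) / y
    rw [g1, e2, e1]
    field_simp
  · show -(algebraMap k F t * (algebraMap k F t * y / x ^ 2 - algebraMap k F t)) /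
      (algebraMap k F t ^ 2 * (x ^ 2 - y) / x ^ 3) = x
    rw [g2]
    field_simp

lemma mon_next (ht : t ≠ 0) (h : Gen t x y) (e : Fin 5 → ℤ) :
    mon t (algebraMap k F t * y / x ^ 2) (algebraMap k F t ^ 2 * (x ^ 2 - y) / x ^ 3)
      (fun i => e (i + 1)) = mon t x y e := by
  unfold mon
  rw [← Equiv.prod_comp (Equiv.addRight (1 : Fin 5)) (fun i => X t x y i ^ e i)]
  refine Finset.prod_congr rfl fun i _ => ?_
  rw [X_next ht h]
  rfl

/-- the product of the five units -/
lemma X_prod (ht : t ≠ 0) (h : Gen t x y) : ∏ i, X t x y i = -(algebraMap k F t) ^ 4 := by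
  have hT : algebraMap k F t ≠ 0 := (_root_.map_ne_zero _).mpr ht
  have h1 := h.x_ne
  have h2 := h.xt_ne
  have h3 := h.y_ne
  have h4 := h.ytx_ne
  rw [Fin.prod_univ_five]
  show x * (algebraMap k F t * y / x ^ 2) *
    (algebraMap k F t * x * (y - algebraMap k F t * x) / (y * (x - algebraMap k F t))) *
    (algebraMap k F t * y / (y - algebraMap k F t * x)) *
    (-(algebraMap k F t * (x - algebraMap k F t)) / y) = _
  field_simp
  rw [div_self (by rwa [mul_comm x])]

/-- the alternatives at one point -/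
def Alt (m m' : ℤ) : Prop := (m = 0 ∧ m' = 0) ∨ (1 ≤ m ∧ m ≤ 5 ∧ m' = 0) ∨
  (m = 0 ∧ 1 ≤ m' ∧ m' ≤ 5) ∨ (m = m' ∧ -5 ≤ m ∧ m ≤ -1)

lemma io_mo (h : Gen t x y) (a b c d : ℤ) : io h.toG (mo a b c d) =
    x ^ a * (x - algebraMap k F t) ^ b * y ^ c * (y - algebraMap k F t * x) ^ d := by
  unfold mo tK
  rw [map_mul, map_mul, map_mul, map_zpow₀, map_zpow₀, map_zpow₀, map_zpow₀, map_sub, map_sub,
    map_mul, io_x, io_y, io_c]

lemma mon_mo' (ht : t ≠ 0) (h : Gen t x y) (e : Fin 5 → ℤ) :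
    mon t x y e = algebraMap k F (t ^ (e 1 + e 2 + e 3 + e 4) * (-1) ^ e 4) *
      (x ^ (e 0 - 2 * e 1 + e 2) * (x - algebraMap k F t) ^ (-e 2 + e 4) *
        y ^ (e 1 - e 2 + e 3 - e 4) * (y - algebraMap k F t * x) ^ (e 2 - e 3)) := by
  have hT : algebraMap k F t ≠ 0 := (_root_.map_ne_zero _).mpr ht
  have h1 := h.x_ne
  have h2 := h.xt_ne
  have h3 := h.y_ne
  have h4 := h.ytx_ne
  rw [mon_eq, show algebraMap k F t * y / x ^ 2 = algebraMap k F t * y / (x * x) by rw [pow_two],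
    show -(algebraMap k F t * (x - algebraMap k F t)) / y =
      (-1) * algebraMap k F t * (x - algebraMap k F t) / y by ring]
  rw [map_mul, map_zpow₀, map_zpow₀, map_neg, map_one]
  simp only [mul_zpow, div_zpow]
  rw [show e 0 - 2 * e 1 + e 2 = e 0 + e 2 - e 1 - e 1 by ring,
    show -e 2 + e 4 = e 4 - e 2 by ring, show e 1 - e 2 + e 3 - e 4 = e 1 + e 3 - e 2 - e 4 by ring]
  rw [zpow_sub₀ h1, zpow_sub₀ h1, zpow_add₀ h1, zpow_sub₀ h2, zpow_sub₀ h3, zpow_sub₀ h3,
    zpow_add₀ h3, zpow_sub₀ h4, zpow_add₀ hT, zpow_add₀ hT, zpow_add₀ hT]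
  field_simp

lemma mon_mo (ht : t ≠ 0) (h : Gen t x y) (e : Fin 5 → ℤ) :
    mon t x y e = algebraMap k F (t ^ (e 1 + e 2 + e 3 + e 4) * (-1) ^ e 4) *
      io h.toG (mo (e 0 - 2 * e 1 + e 2) (-e 2 + e 4) (e 1 - e 2 + e 3 - e 4) (e 2 - e 3)) := by
  rw [mon_mo' ht h, io_mo h]

/-- **the bound at the first point** -/
theorem GL0 [CharZero k] (ht : t ≠ 0) (h : Gen t x y) {c₀ c₁ : k} (h0 : c₀ ≠ 0) (h1 : c₁ ≠ 0)
    {e e' : Fin 5 → ℤ}
    (hu : algebraMap k F c₀ * mon t x y e + algebraMap k F c₁ * mon t x y e' = 1) :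
    (∀ i j, e i = e j) ∨ Alt (mm e 0) (mm e' 0) := by
  have hs : ∀ n m : ℤ, t ^ n * ((-1 : k)) ^ m ≠ 0 := fun n m =>
    mul_ne_zero (zpow_ne_zero _ ht) (zpow_ne_zero _ (neg_ne_zero.mpr one_ne_zero))
  have key := GL_K (t := t) ht (mul_ne_zero h0 (hs (e 1 + e 2 + e 3 + e 4) (e 4)))
    (mul_ne_zero h1 (hs (e' 1 + e' 2 + e' 3 + e' 4) (e' 4)))
    (a := e 0 - 2 * e 1 + e 2) (b := -e 2 + e 4) (c := e 1 - e 2 + e 3 - e 4) (d := e 2 - e 3)
    (a' := e' 0 - 2 * e' 1 + e' 2) (b' := -e' 2 + e' 4) (c' := e' 1 - e' 2 + e' 3 - e' 4)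
    (d' := e' 2 - e' 3) (n := - mm e 0) (n' := - mm e' 0) (by
      apply io_inj h.toG
      rw [map_one, ← hu, mon_mo ht h, mon_mo ht h]
      simp only [map_add, map_mul, io_c]
      ring) (by
      show -(e (0 + 1) + e (0 - 1) - 2 * e 0) = _
      rw [show (0 + 1 : Fin 5) = 1 from rfl, show (0 - 1 : Fin 5) = 4 from rfl]
      ring) (by
      show -(e' (0 + 1) + e' (0 - 1) - 2 * e' 0) = _
      rw [show (0 + 1 : Fin 5) = 1 from rfl, show (0 - 1 : Fin 5) = 4 from rfl]
      ring)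
  rcases key with ⟨a1, a2, a3, a4⟩ | h2 | h2 | h2 | h2
  · left
    have b1 : e 1 = e 0 := by omega
    have b2 : e 2 = e 0 := by omega
    have b3 : e 3 = e 0 := by omega
    have b4 : e 4 = e 0 := by omega
    intro i j
    fin_cases i <;> fin_cases j <;> simp <;> omega
  · right; unfold Alt; omega
  · right; unfold Alt; omega
  · right; unfold Alt; omega
  · right; unfold Alt; omega

/-- the points one after the other -/
def sh : ℕ → Fin 5
  | 0 => 0
  | n + 1 => sh n + 1

lemma mm_shift (e : Fin 5 → ℤ) (i : Fin 5) : mm (fun i => e (i + 1)) i = mm e (i + 1) := by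
  show e (i + 1 + 1) + e (i - 1 + 1) - 2 * e (i + 1) =
    e (i + 1 + 1) + e (i + 1 - 1) - 2 * e (i + 1)
  rw [sub_add_cancel, add_sub_cancel_right]

/-- the bound at all points, by translation -/
theorem bound_nat [CharZero k] (ht : t ≠ 0) : ∀ (n : ℕ) {x y : F} (_ : Gen t x y) {c₀ c₁ : k}
    (_ : c₀ ≠ 0) (_ : c₁ ≠ 0) {e e' : Fin 5 → ℤ}
    (_ : algebraMap k F c₀ * mon t x y e + algebraMap k F c₁ * mon t x y e' = 1),
    (∀ i j, e i = e j) ∨ Alt (mm e (sh n)) (mm e' (sh n)) := by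
  intro n
  induction n with
  | zero => intro x y h c₀ c₁ h0 h1 e e' hu; exact GL0 ht h h0 h1 hu
  | succ n ih =>
    intro x y h c₀ c₁ h0 h1 e e' hu
    rw [← mon_next ht h e, ← mon_next ht h e'] at hu
    rcases ih (h.next ht) h0 h1 hu with h2 | h2
    · left
      intro i j
      have := h2 (i - 1) (j - 1)
      simpa using this
    · right
      rwa [mm_shift, mm_shift] at h2

/-- **the bound at all five points** -/
theorem bound [CharZero k] (ht : t ≠ 0) (h : Gen t x y) {c₀ c₁ : k} (h0 : c₀ ≠ 0) (h1 : c₁ ≠ 0)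
    {e e' : Fin 5 → ℤ}
    (hu : algebraMap k F c₀ * mon t x y e + algebraMap k F c₁ * mon t x y e' = 1) :
    (∀ i j, e i = e j) ∨ ∀ i, Alt (mm e i) (mm e' i) := by
  by_cases hc : ∀ i j, e i = e j
  · exact Or.inl hc
  · right
    intro i
    have key := fun n => (bound_nat ht n h h0 h1 hu).resolve_left hc
    fin_cases i
    · exact key 0
    · exact key 1
    · exact key 2
    · exact key 3
    · exact key 4

end

end Pool.Agent.UE5
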