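import Pool.Agent.Lib_helper76.UE5.B

/-!
# The unit equation for a point of order five, III: the 25 monomials with poles only at `O`
-/

set_option autoImplicit false
set_option linter.unusedSimpArgs false

namespace Pool.Agent.UE5

/-- the exponents of `x`, `x - t`, `y`, `y - t x` -/
def ex : Fin 25 → ℤ × ℤ × ℤ × ℤ := ![
  (0, 1, 0, 0),
  (1, 0, 0, 0),
  (0, 0, 0, 1),
  (0, 0, 1, 0),
  (1, 2, 0, -1),
  (2, 1, -1, 0),
  (0, -1, 1, 1),
  (0, 2, 0, 0),
  (0, 2, 1, -1),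
  (1, 1, -1, 1),
  (1, 1, 0, 0),
  (2, 0, 0, 0),
  (3, 2, -1, -1),
  (0, -2, 2, 1),
  (0, 1, -1, 2),
  (0, 1, 0, 1),
  (0, 1, 1, 0),
  (0, 4, 1, -2),
  (1, 0, 0, 1),
  (1, 0, 1, 0),
  (1, 3, 0, -1),
  (2, 2, -1, 0),
  (2, 2, 0, -1),
  (3, 1, -1, 0),
  (5, 2, -2, -1)]

/-- the coefficients of `1, x, y, x², x y` -/
def cf {k : Type*} [Field k] (t : k) : Fin 25 → Fin 5 → k := ![
  ![-t, 1, 0, 0, 0],
  ![0, 1, 0, 0, 0],
  ![0, -t, 1, 0, 0],
  ![0, 0, 1, 0, 0],
  ![-t, 1, 1, 0, 0],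
  ![-t, 1 - t, 1, 0, 0],
  ![0, 0, -1, 1, 0],
  ![t ^ 2, -2 * t, 0, 1, 0],
  ![0, -t, t, 1, 0],
  ![t ^ 2, -2 * t + t ^ 2, -t, 1, 0],
  ![0, -t, 0, 1, 0],
  ![0, 0, 0, 1, 0],
  ![-t, 1 - t, 1, 1, 0],
  ![0, 0, 1, -1, 1],
  ![-t ^ 3, 3 * t ^ 2 - t ^ 3, -t + t ^ 2, -2 * t, 1],
  ![0, t ^ 2, -t, -t, 1],
  ![0, 0, -t, 0, 1],
  ![t ^ 2, -2 * t - t ^ 2, -t + t ^ 2, 1 + t, 1],
  ![0, 0, 0, -t, 1],
  ![0, 0, 0, 0, 1],
  ![t ^ 2, -2 * t, -t, 1, 1],
  ![t ^ 2, -2 * t + t ^ 2, -t, 1 - t, 1],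
  ![0, -t, 0, 1, 1],
  ![0, -t, 0, 1 - t, 1],
  ![-t, 1 - 2 * t, 1, 2 - t, 1]]

section

variable {k : Type*} [Field k] {F : Type*} [Field F] [Algebra k F]

/-- the value of the polynomial with coefficients `v` -/
def pv (x y : F) (v : Fin 5 → k) : F :=
  algebraMap k F (v 0) + algebraMap k F (v 1) * x + algebraMap k F (v 2) * y +
    algebraMap k F (v 3) * x ^ 2 + algebraMap k F (v 4) * (x * y)

lemma conv {x x1 y xy : F} (h0 : x ≠ 0) (h1 : x1 ≠ 0) (h2 : y ≠ 0) (h3 : xy ≠ 0)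
    (a a' b b' d d' e e' : ℕ) (P : F)
    (h : x ^ a * x1 ^ b * y ^ d * xy ^ e = P * (x ^ a' * x1 ^ b' * y ^ d' * xy ^ e')) :
    x ^ ((a : ℤ) - a') * x1 ^ ((b : ℤ) - b') * y ^ ((d : ℤ) - d') * xy ^ ((e : ℤ) - e') = P := by
  rw [zpow_sub₀ h0, zpow_sub₀ h1, zpow_sub₀ h2, zpow_sub₀ h3]
  simp only [zpow_natCast]
  have e1 : x ^ a / x ^ a' * (x1 ^ b / x1 ^ b') * (y ^ d / y ^ d') * (xy ^ e / xy ^ e') =
      (x ^ a * x1 ^ b * y ^ d * xy ^ e) / (x ^ a' * x1 ^ b' * y ^ d' * xy ^ e') := by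
    field_simp
  rw [e1, h, mul_div_assoc, div_self (by exact mul_ne_zero (mul_ne_zero (mul_ne_zero
    (pow_ne_zero _ h0) (pow_ne_zero _ h1)) (pow_ne_zero _ h2)) (pow_ne_zero _ h3)), mul_one]

variable {t : k} {x y : F}

lemma row0 (h : Gen t x y) :
    x ^ (0 : ℤ) * (x - algebraMap k F t) ^ (1 : ℤ) * y ^ (0 : ℤ) *
      (y - algebraMap k F t * x) ^ (0 : ℤ) = pv x y (cf t 0) := by
  have he := h.eq
  have e : pv x y (cf t 0) = pv x y (![-t, 1, 0, 0, 0] : Fin 5 → k) := rfl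
  rw [e]
  refine Eq.trans ?_ (conv h.x_ne h.xt_ne h.y_ne h.ytx_ne 0 0 1 0 0 0 0 0 _ ?_)
  · norm_num
  · simp only [pv, Matrix.cons_val, map_add, map_sub, map_mul, map_neg, map_pow, map_zero,
      map_one, map_ofNat]
    generalize algebraMap k F t = T at *
    linear_combination (0) * he

lemma row1 (h : Gen t x y) :
    x ^ (1 : ℤ) * (x - algebraMap k F t) ^ (0 : ℤ) * y ^ (0 : ℤ) *
      (y - algebraMap k F t * x) ^ (0 : ℤ) = pv x y (cf t 1) := by
  have he := h.eq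
  have e : pv x y (cf t 1) = pv x y (![0, 1, 0, 0, 0] : Fin 5 → k) := rfl
  rw [e]
  refine Eq.trans ?_ (conv h.x_ne h.xt_ne h.y_ne h.ytx_ne 1 0 0 0 0 0 0 0 _ ?_)
  · norm_num
  · simp only [pv, Matrix.cons_val, map_add, map_sub, map_mul, map_neg, map_pow, map_zero,
      map_one, map_ofNat]
    generalize algebraMap k F t = T at *
    linear_combination (0) * he

lemma row2 (h : Gen t x y) :
    x ^ (0 : ℤ) * (x - algebraMap k F t) ^ (0 : ℤ) * y ^ (0 : ℤ) *
      (y - algebraMap k F t * x) ^ (1 : ℤ) = pv x y (cf t 2) := by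
  have he := h.eq
  have e : pv x y (cf t 2) = pv x y (![0, -t, 1, 0, 0] : Fin 5 → k) := rfl
  rw [e]
  refine Eq.trans ?_ (conv h.x_ne h.xt_ne h.y_ne h.ytx_ne 0 0 0 0 0 0 1 0 _ ?_)
  · norm_num
  · simp only [pv, Matrix.cons_val, map_add, map_sub, map_mul, map_neg, map_pow, map_zero,
      map_one, map_ofNat]
    generalize algebraMap k F t = T at *
    linear_combination (0) * he

lemma row3 (h : Gen t x y) :
    x ^ (0 : ℤ) * (x - algebraMap k F t) ^ (0 : ℤ) * y ^ (1 : ℤ) *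
      (y - algebraMap k F t * x) ^ (0 : ℤ) = pv x y (cf t 3) := by
  have he := h.eq
  have e : pv x y (cf t 3) = pv x y (![0, 0, 1, 0, 0] : Fin 5 → k) := rfl
  rw [e]
  refine Eq.trans ?_ (conv h.x_ne h.xt_ne h.y_ne h.ytx_ne 0 0 0 0 1 0 0 0 _ ?_)
  · norm_num
  · simp only [pv, Matrix.cons_val, map_add, map_sub, map_mul, map_neg, map_pow, map_zero,
      map_one, map_ofNat]
    generalize algebraMap k F t = T at *
    linear_combination (0) * he

lemma row4 (h : Gen t x y) :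
    x ^ (1 : ℤ) * (x - algebraMap k F t) ^ (2 : ℤ) * y ^ (0 : ℤ) *
      (y - algebraMap k F t * x) ^ (-1 : ℤ) = pv x y (cf t 4) := by
  have he := h.eq
  have e : pv x y (cf t 4) = pv x y (![-t, 1, 1, 0, 0] : Fin 5 → k) := rfl
  rw [e]
  refine Eq.trans ?_ (conv h.x_ne h.xt_ne h.y_ne h.ytx_ne 1 0 2 0 0 0 0 1 _ ?_)
  · norm_num
  · simp only [pv, Matrix.cons_val, map_add, map_sub, map_mul, map_neg, map_pow, map_zero,
      map_one, map_ofNat]
    generalize algebraMap k F t = T at *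
    linear_combination ((-1)) * he

lemma row5 (h : Gen t x y) :
    x ^ (2 : ℤ) * (x - algebraMap k F t) ^ (1 : ℤ) * y ^ (-1 : ℤ) *
      (y - algebraMap k F t * x) ^ (0 : ℤ) = pv x y (cf t 5) := by
  have he := h.eq
  have e : pv x y (cf t 5) = pv x y (![-t, 1 - t, 1, 0, 0] : Fin 5 → k) := rfl
  rw [e]
  refine Eq.trans ?_ (conv h.x_ne h.xt_ne h.y_ne h.ytx_ne 2 0 1 0 0 1 0 0 _ ?_)
  · norm_num
  · simp only [pv, Matrix.cons_val, map_add, map_sub, map_mul, map_neg, map_pow, map_zero,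
      map_one, map_ofNat]
    generalize algebraMap k F t = T at *
    linear_combination ((-1)) * he

lemma row6 (h : Gen t x y) :
    x ^ (0 : ℤ) * (x - algebraMap k F t) ^ (-1 : ℤ) * y ^ (1 : ℤ) *
      (y - algebraMap k F t * x) ^ (1 : ℤ) = pv x y (cf t 6) := by
  have he := h.eq
  have e : pv x y (cf t 6) = pv x y (![0, 0, -1, 1, 0] : Fin 5 → k) := rfl
  rw [e]
  refine Eq.trans ?_ (conv h.x_ne h.xt_ne h.y_ne h.ytx_ne 0 0 0 1 1 0 1 0 _ ?_)
  · norm_num
  · simp only [pv, Matrix.cons_val, map_add, map_sub, map_mul, map_neg, map_pow, map_zero,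
      map_one, map_ofNat]
    generalize algebraMap k F t = T at *
    linear_combination ((1)) * he

lemma row7 (h : Gen t x y) :
    x ^ (0 : ℤ) * (x - algebraMap k F t) ^ (2 : ℤ) * y ^ (0 : ℤ) *
      (y - algebraMap k F t * x) ^ (0 : ℤ) = pv x y (cf t 7) := by
  have he := h.eq
  have e : pv x y (cf t 7) = pv x y (![t ^ 2, -2 * t, 0, 1, 0] : Fin 5 → k) := rfl
  rw [e]
  refine Eq.trans ?_ (conv h.x_ne h.xt_ne h.y_ne h.ytx_ne 0 0 2 0 0 0 0 0 _ ?_)
  · norm_num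
  · simp only [pv, Matrix.cons_val, map_add, map_sub, map_mul, map_neg, map_pow, map_zero,
      map_one, map_ofNat]
    generalize algebraMap k F t = T at *
    linear_combination (0) * he

lemma row8 (h : Gen t x y) :
    x ^ (0 : ℤ) * (x - algebraMap k F t) ^ (2 : ℤ) * y ^ (1 : ℤ) *
      (y - algebraMap k F t * x) ^ (-1 : ℤ) = pv x y (cf t 8) := by
  have he := h.eq
  have e : pv x y (cf t 8) = pv x y (![0, -t, t, 1, 0] : Fin 5 → k) := rfl
  rw [e]
  refine Eq.trans ?_ (conv h.x_ne h.xt_ne h.y_ne h.ytx_ne 0 0 2 0 1 0 0 1 _ ?_)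
  · norm_num
  · simp only [pv, Matrix.cons_val, map_add, map_sub, map_mul, map_neg, map_pow, map_zero,
      map_one, map_ofNat]
    generalize algebraMap k F t = T at *
    linear_combination ((-1) * T) * he

lemma row9 (h : Gen t x y) :
    x ^ (1 : ℤ) * (x - algebraMap k F t) ^ (1 : ℤ) * y ^ (-1 : ℤ) *
      (y - algebraMap k F t * x) ^ (1 : ℤ) = pv x y (cf t 9) := by
  have he := h.eq
  have e : pv x y (cf t 9) = pv x y (![t ^ 2, -2 * t + t ^ 2, -t, 1, 0] : Fin 5 → k) := rfl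
  rw [e]
  refine Eq.trans ?_ (conv h.x_ne h.xt_ne h.y_ne h.ytx_ne 1 0 1 0 0 1 1 0 _ ?_)
  · norm_num
  · simp only [pv, Matrix.cons_val, map_add, map_sub, map_mul, map_neg, map_pow, map_zero,
      map_one, map_ofNat]
    generalize algebraMap k F t = T at *
    linear_combination ((1) * T) * he

lemma row10 (h : Gen t x y) :
    x ^ (1 : ℤ) * (x - algebraMap k F t) ^ (1 : ℤ) * y ^ (0 : ℤ) *
      (y - algebraMap k F t * x) ^ (0 : ℤ) = pv x y (cf t 10) := by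
  have he := h.eq
  have e : pv x y (cf t 10) = pv x y (![0, -t, 0, 1, 0] : Fin 5 → k) := rfl
  rw [e]
  refine Eq.trans ?_ (conv h.x_ne h.xt_ne h.y_ne h.ytx_ne 1 0 1 0 0 0 0 0 _ ?_)
  · norm_num
  · simp only [pv, Matrix.cons_val, map_add, map_sub, map_mul, map_neg, map_pow, map_zero,
      map_one, map_ofNat]
    generalize algebraMap k F t = T at *
    linear_combination (0) * he

lemma row11 (h : Gen t x y) :
    x ^ (2 : ℤ) * (x - algebraMap k F t) ^ (0 : ℤ) * y ^ (0 : ℤ) *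
      (y - algebraMap k F t * x) ^ (0 : ℤ) = pv x y (cf t 11) := by
  have he := h.eq
  have e : pv x y (cf t 11) = pv x y (![0, 0, 0, 1, 0] : Fin 5 → k) := rfl
  rw [e]
  refine Eq.trans ?_ (conv h.x_ne h.xt_ne h.y_ne h.ytx_ne 2 0 0 0 0 0 0 0 _ ?_)
  · norm_num
  · simp only [pv, Matrix.cons_val, map_add, map_sub, map_mul, map_neg, map_pow, map_zero,
      map_one, map_ofNat]
    generalize algebraMap k F t = T at *
    linear_combination (0) * he

lemma row12 (h : Gen t x y) :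
    x ^ (3 : ℤ) * (x - algebraMap k F t) ^ (2 : ℤ) * y ^ (-1 : ℤ) *
      (y - algebraMap k F t * x) ^ (-1 : ℤ) = pv x y (cf t 12) := by
  have he := h.eq
  have e : pv x y (cf t 12) = pv x y (![-t, 1 - t, 1, 1, 0] : Fin 5 → k) := rfl
  rw [e]
  refine Eq.trans ?_ (conv h.x_ne h.xt_ne h.y_ne h.ytx_ne 3 0 2 0 0 1 0 1 _ ?_)
  · norm_num
  · simp only [pv, Matrix.cons_val, map_add, map_sub, map_mul, map_neg, map_pow, map_zero,
      map_one, map_ofNat]
    generalize algebraMap k F t = T at *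
    linear_combination ((-1) * y + (1) * x * T + (-1) * x ^ 2) * he

lemma row13 (h : Gen t x y) :
    x ^ (0 : ℤ) * (x - algebraMap k F t) ^ (-2 : ℤ) * y ^ (2 : ℤ) *
      (y - algebraMap k F t * x) ^ (1 : ℤ) = pv x y (cf t 13) := by
  have he := h.eq
  have e : pv x y (cf t 13) = pv x y (![0, 0, 1, -1, 1] : Fin 5 → k) := rfl
  rw [e]
  refine Eq.trans ?_ (conv h.x_ne h.xt_ne h.y_ne h.ytx_ne 0 0 0 2 2 0 1 0 _ ?_)
  · norm_num
  · simp only [pv, Matrix.cons_val, map_add, map_sub, map_mul, map_neg, map_pow, map_zero,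
      map_one, map_ofNat]
    generalize algebraMap k F t = T at *
    linear_combination ((1) * T + (1) * y + (-1) * x) * he

lemma row14 (h : Gen t x y) :
    x ^ (0 : ℤ) * (x - algebraMap k F t) ^ (1 : ℤ) * y ^ (-1 : ℤ) *
      (y - algebraMap k F t * x) ^ (2 : ℤ) = pv x y (cf t 14) := by
  have he := h.eq
  have e : pv x y (cf t 14) = pv x y (![-t ^ 3, 3 * t ^ 2 - t ^ 3, -t + t ^ 2, -2 * t, 1] : Fin 5 → k) := rfl
  rw [e]
  refine Eq.trans ?_ (conv h.x_ne h.xt_ne h.y_ne h.ytx_ne 0 0 1 0 0 1 2 0 _ ?_)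
  · norm_num
  · simp only [pv, Matrix.cons_val, map_add, map_sub, map_mul, map_neg, map_pow, map_zero,
      map_one, map_ofNat]
    generalize algebraMap k F t = T at *
    linear_combination ((-1) * T ^ 2) * he

lemma row15 (h : Gen t x y) :
    x ^ (0 : ℤ) * (x - algebraMap k F t) ^ (1 : ℤ) * y ^ (0 : ℤ) *
      (y - algebraMap k F t * x) ^ (1 : ℤ) = pv x y (cf t 15) := by
  have he := h.eq
  have e : pv x y (cf t 15) = pv x y (![0, t ^ 2, -t, -t, 1] : Fin 5 → k) := rfl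
  rw [e]
  refine Eq.trans ?_ (conv h.x_ne h.xt_ne h.y_ne h.ytx_ne 0 0 1 0 0 0 1 0 _ ?_)
  · norm_num
  · simp only [pv, Matrix.cons_val, map_add, map_sub, map_mul, map_neg, map_pow, map_zero,
      map_one, map_ofNat]
    generalize algebraMap k F t = T at *
    linear_combination (0) * he

lemma row16 (h : Gen t x y) :
    x ^ (0 : ℤ) * (x - algebraMap k F t) ^ (1 : ℤ) * y ^ (1 : ℤ) *
      (y - algebraMap k F t * x) ^ (0 : ℤ) = pv x y (cf t 16) := by
  have he := h.eq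
  have e : pv x y (cf t 16) = pv x y (![0, 0, -t, 0, 1] : Fin 5 → k) := rfl
  rw [e]
  refine Eq.trans ?_ (conv h.x_ne h.xt_ne h.y_ne h.ytx_ne 0 0 1 0 1 0 0 0 _ ?_)
  · norm_num
  · simp only [pv, Matrix.cons_val, map_add, map_sub, map_mul, map_neg, map_pow, map_zero,
      map_one, map_ofNat]
    generalize algebraMap k F t = T at *
    linear_combination (0) * he

lemma row17 (h : Gen t x y) :
    x ^ (0 : ℤ) * (x - algebraMap k F t) ^ (4 : ℤ) * y ^ (1 : ℤ) *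
      (y - algebraMap k F t * x) ^ (-2 : ℤ) = pv x y (cf t 17) := by
  have he := h.eq
  have e : pv x y (cf t 17) = pv x y (![t ^ 2, -2 * t - t ^ 2, -t + t ^ 2, 1 + t, 1] : Fin 5 → k) := rfl
  rw [e]
  refine Eq.trans ?_ (conv h.x_ne h.xt_ne h.y_ne h.ytx_ne 0 0 4 0 1 0 0 2 _ ?_)
  · norm_num
  · simp only [pv, Matrix.cons_val, map_add, map_sub, map_mul, map_neg, map_pow, map_zero,
      map_one, map_ofNat]
    generalize algebraMap k F t = T at *
    linear_combination ((-1) * T ^ 3 + (1) * y * T + (-1) * y * T ^ 2 + (1) * x * T ^ 2 + (1) * x * T ^ 3 + (-1) * x * y) * he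

lemma row18 (h : Gen t x y) :
    x ^ (1 : ℤ) * (x - algebraMap k F t) ^ (0 : ℤ) * y ^ (0 : ℤ) *
      (y - algebraMap k F t * x) ^ (1 : ℤ) = pv x y (cf t 18) := by
  have he := h.eq
  have e : pv x y (cf t 18) = pv x y (![0, 0, 0, -t, 1] : Fin 5 → k) := rfl
  rw [e]
  refine Eq.trans ?_ (conv h.x_ne h.xt_ne h.y_ne h.ytx_ne 1 0 0 0 0 0 1 0 _ ?_)
  · norm_num
  · simp only [pv, Matrix.cons_val, map_add, map_sub, map_mul, map_neg, map_pow, map_zero,
      map_one, map_ofNat]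
    generalize algebraMap k F t = T at *
    linear_combination (0) * he

lemma row19 (h : Gen t x y) :
    x ^ (1 : ℤ) * (x - algebraMap k F t) ^ (0 : ℤ) * y ^ (1 : ℤ) *
      (y - algebraMap k F t * x) ^ (0 : ℤ) = pv x y (cf t 19) := by
  have he := h.eq
  have e : pv x y (cf t 19) = pv x y (![0, 0, 0, 0, 1] : Fin 5 → k) := rfl
  rw [e]
  refine Eq.trans ?_ (conv h.x_ne h.xt_ne h.y_ne h.ytx_ne 1 0 0 0 1 0 0 0 _ ?_)
  · norm_num
  · simp only [pv, Matrix.cons_val, map_add, map_sub, map_mul, map_neg, map_pow, map_zero,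
      map_one, map_ofNat]
    generalize algebraMap k F t = T at *
    linear_combination (0) * he

lemma row20 (h : Gen t x y) :
    x ^ (1 : ℤ) * (x - algebraMap k F t) ^ (3 : ℤ) * y ^ (0 : ℤ) *
      (y - algebraMap k F t * x) ^ (-1 : ℤ) = pv x y (cf t 20) := by
  have he := h.eq
  have e : pv x y (cf t 20) = pv x y (![t ^ 2, -2 * t, -t, 1, 1] : Fin 5 → k) := rfl
  rw [e]
  refine Eq.trans ?_ (conv h.x_ne h.xt_ne h.y_ne h.ytx_ne 1 0 3 0 0 0 0 1 _ ?_)
  · norm_num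
  · simp only [pv, Matrix.cons_val, map_add, map_sub, map_mul, map_neg, map_pow, map_zero,
      map_one, map_ofNat]
    generalize algebraMap k F t = T at *
    linear_combination ((1) * T + (-1) * x) * he

lemma row21 (h : Gen t x y) :
    x ^ (2 : ℤ) * (x - algebraMap k F t) ^ (2 : ℤ) * y ^ (-1 : ℤ) *
      (y - algebraMap k F t * x) ^ (0 : ℤ) = pv x y (cf t 21) := by
  have he := h.eq
  have e : pv x y (cf t 21) = pv x y (![t ^ 2, -2 * t + t ^ 2, -t, 1 - t, 1] : Fin 5 → k) := rfl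
  rw [e]
  refine Eq.trans ?_ (conv h.x_ne h.xt_ne h.y_ne h.ytx_ne 2 0 2 0 0 1 0 0 _ ?_)
  · norm_num
  · simp only [pv, Matrix.cons_val, map_add, map_sub, map_mul, map_neg, map_pow, map_zero,
      map_one, map_ofNat]
    generalize algebraMap k F t = T at *
    linear_combination ((1) * T + (-1) * x) * he

lemma row22 (h : Gen t x y) :
    x ^ (2 : ℤ) * (x - algebraMap k F t) ^ (2 : ℤ) * y ^ (0 : ℤ) *
      (y - algebraMap k F t * x) ^ (-1 : ℤ) = pv x y (cf t 22) := by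
  have he := h.eq
  have e : pv x y (cf t 22) = pv x y (![0, -t, 0, 1, 1] : Fin 5 → k) := rfl
  rw [e]
  refine Eq.trans ?_ (conv h.x_ne h.xt_ne h.y_ne h.ytx_ne 2 0 2 0 0 0 0 1 _ ?_)
  · norm_num
  · simp only [pv, Matrix.cons_val, map_add, map_sub, map_mul, map_neg, map_pow, map_zero,
      map_one, map_ofNat]
    generalize algebraMap k F t = T at *
    linear_combination ((-1) * x) * he

lemma row23 (h : Gen t x y) :
    x ^ (3 : ℤ) * (x - algebraMap k F t) ^ (1 : ℤ) * y ^ (-1 : ℤ) *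
      (y - algebraMap k F t * x) ^ (0 : ℤ) = pv x y (cf t 23) := by
  have he := h.eq
  have e : pv x y (cf t 23) = pv x y (![0, -t, 0, 1 - t, 1] : Fin 5 → k) := rfl
  rw [e]
  refine Eq.trans ?_ (conv h.x_ne h.xt_ne h.y_ne h.ytx_ne 3 0 1 0 0 1 0 0 _ ?_)
  · norm_num
  · simp only [pv, Matrix.cons_val, map_add, map_sub, map_mul, map_neg, map_pow, map_zero,
      map_one, map_ofNat]
    generalize algebraMap k F t = T at *
    linear_combination ((-1) * x) * he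

lemma row24 (h : Gen t x y) :
    x ^ (5 : ℤ) * (x - algebraMap k F t) ^ (2 : ℤ) * y ^ (-2 : ℤ) *
      (y - algebraMap k F t * x) ^ (-1 : ℤ) = pv x y (cf t 24) := by
  have he := h.eq
  have e : pv x y (cf t 24) = pv x y (![-t, 1 - 2 * t, 1, 2 - t, 1] : Fin 5 → k) := rfl
  rw [e]
  refine Eq.trans ?_ (conv h.x_ne h.xt_ne h.y_ne h.ytx_ne 5 0 2 0 0 2 0 1 _ ?_)
  · norm_num
  · simp only [pv, Matrix.cons_val, map_add, map_sub, map_mul, map_neg, map_pow, map_zero,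
      map_one, map_ofNat]
    generalize algebraMap k F t = T at *
    linear_combination ((-1) * y ^ 2 + (1) * x * y * T + (-1) * x * y ^ 2 + (-1) * x ^ 2 * y + (1) * x ^ 2 * y * T + (1) * x ^ 3 * T + (-1) * x ^ 4) * he

/-- the table -/
theorem ex_spec (h : Gen t x y) (i : Fin 25) :
    x ^ (ex i).1 * (x - algebraMap k F t) ^ (ex i).2.1 * y ^ (ex i).2.2.1 *
      (y - algebraMap k F t * x) ^ (ex i).2.2.2 = pv x y (cf t i) := by
  fin_cases i
  · exact row0 h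
  · exact row1 h
  · exact row2 h
  · exact row3 h
  · exact row4 h
  · exact row5 h
  · exact row6 h
  · exact row7 h
  · exact row8 h
  · exact row9 h
  · exact row10 h
  · exact row11 h
  · exact row12 h
  · exact row13 h
  · exact row14 h
  · exact row15 h
  · exact row16 h
  · exact row17 h
  · exact row18 h
  · exact row19 h
  · exact row20 h
  · exact row21 h
  · exact row22 h
  · exact row23 h
  · exact row24 h

end

end Pool.Agent.UE5
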