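import Pool.Agent.Lib_helper76.UE5.C
import Pool.Agent.Lib_helper24.K4C.FinA

/-!
# The unit equation for a point of order five, IV: the pairs of monomials
-/

set_option autoImplicit false
set_option linter.unusedVariables false

namespace Pool.Agent.UE5

section pairs

variable {k : Type*} [Field k] [CharZero k] {g g' t : k}

lemma no_6_12 (ht : t ≠ 0) (hg : g ≠ 0) (i1 : g * 0 + g' * (1 - t) = 0) (i2 : g * (-1) + g' * 1 = 0)
    (i3 : g * 1 + g' * 1 = 0) (i4 : g * 0 + g' * 0 = 0) : False := by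
  have w : g * (2) = 0 := by
    linear_combination (-1) * ((1) * i2 - (1) * i3)
  exact mul_ne_zero hg (by norm_num) w

lemma no_7_11 (ht : t ≠ 0) (hg : g ≠ 0) (i1 : g * (-2 * t) + g' * 0 = 0) (i2 : g * 0 + g' * 0 = 0)
    (i3 : g * 1 + g' * 1 = 0) (i4 : g * 0 + g' * 0 = 0) : False := by
  have w : g * (2 * t) = 0 := by
    linear_combination (-1) * ((1) * i1 - (0) * i3)
  exact mul_ne_zero hg (mul_ne_zero (by norm_num) ht) w

lemma no_8_9 (ht : t ≠ 0) (hg : g ≠ 0) (i1 : g * (-t) + g' * (-2 * t + t ^ 2) = 0) (i2 : g * t + g' * (-t) = 0)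
    (i3 : g * 1 + g' * 1 = 0) (i4 : g * 0 + g' * 0 = 0) : False := by
  have w : g * (2 * t) = 0 := by
    linear_combination (1) * ((1) * i2 - (-t) * i3)
  exact mul_ne_zero hg (mul_ne_zero (by norm_num) ht) w

lemma no_13_14 (ht : t ≠ 0) (hg : g ≠ 0) (i1 : g * 0 + g' * (3 * t ^ 2 - t ^ 3) = 0) (i2 : g * 1 + g' * (-t + t ^ 2) = 0)
    (i3 : g * (-1) + g' * (-2 * t) = 0) (i4 : g * 1 + g' * 1 = 0) : False := by
  have w : g * (5) = 0 := by
    linear_combination (1 - 2 * t) * ((-2 * t) * i2 - (-t + t ^ 2) * i3) + (5 - 2 * t) * ((1) * i2 - (-t + t ^ 2) * i4)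
  exact mul_ne_zero hg (by norm_num) w

lemma no_13_17 (ht : t ≠ 0) (hg : g ≠ 0) (i1 : g * 0 + g' * (-2 * t - t ^ 2) = 0) (i2 : g * 1 + g' * (-t + t ^ 2) = 0)
    (i3 : g * (-1) + g' * (1 + t) = 0) (i4 : g * 1 + g' * 1 = 0) : False := by
  have w : g * (5) = 0 := by
    linear_combination (-1 - 2 * t) * ((-t + t ^ 2) * i1 - (-2 * t - t ^ 2) * i2) + (5 + 2 * t) * ((1 + t) * i2 - (-t + t ^ 2) * i3)
  exact mul_ne_zero hg (by norm_num) w

lemma no_13_20 (ht : t ≠ 0) (hg : g ≠ 0) (i1 : g * 0 + g' * (-2 * t) = 0) (i2 : g * 1 + g' * (-t) = 0)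
    (i3 : g * (-1) + g' * 1 = 0) (i4 : g * 1 + g' * 1 = 0) : False := by
  have w : g * (2 * t) = 0 := by
    linear_combination (1) * ((-t) * i1 - (-2 * t) * i2)
  exact mul_ne_zero hg (mul_ne_zero (by norm_num) ht) w

lemma no_13_21 (ht : t ≠ 0) (hg : g ≠ 0) (i1 : g * 0 + g' * (-2 * t + t ^ 2) = 0) (i2 : g * 1 + g' * (-t) = 0)
    (i3 : g * (-1) + g' * (1 - t) = 0) (i4 : g * 1 + g' * 1 = 0) : False := by
  have w : g * (3) = 0 := by
    linear_combination (1) * ((1 - t) * i2 - (-t) * i3) + (2) * ((1) * i2 - (-t) * i4)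
  exact mul_ne_zero hg (by norm_num) w

lemma no_13_24 (ht : t ≠ 0) (hg : g ≠ 0) (i1 : g * 0 + g' * (1 - 2 * t) = 0) (i2 : g * 1 + g' * 1 = 0)
    (i3 : g * (-1) + g' * (2 - t) = 0) (i4 : g * 1 + g' * 1 = 0) : False := by
  have w : g * (5) = 0 := by
    linear_combination (1) * ((1) * i1 - (1 - 2 * t) * i2) + (2) * ((2 - t) * i2 - (1) * i3)
  exact mul_ne_zero hg (by norm_num) w

lemma no_14_17 (ht : t ≠ 0) (hg : g ≠ 0) (i1 : g * (3 * t ^ 2 - t ^ 3) + g' * (-2 * t - t ^ 2) = 0) (i2 : g * (-t + t ^ 2) + g' * (-t + t ^ 2) = 0)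
    (i3 : g * (-2 * t) + g' * (1 + t) = 0) (i4 : g * 1 + g' * 1 = 0) : False := by
  have w : g * (5 * t) = 0 := by
    linear_combination (7 - 6 * t) * ((1) * i1 - (-2 * t - t ^ 2) * i4) + (9 - 2 * t) * ((1 + t) * i2 - (-t + t ^ 2) * i3)
  exact mul_ne_zero hg (mul_ne_zero (by norm_num) ht) w

lemma no_14_19 (ht : t ≠ 0) (hg : g ≠ 0) (i1 : g * (3 * t ^ 2 - t ^ 3) + g' * 0 = 0) (i2 : g * (-t + t ^ 2) + g' * 0 = 0)
    (i3 : g * (-2 * t) + g' * 0 = 0) (i4 : g * 1 + g' * 1 = 0) : False := by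
  have w : g * (2 * t) = 0 := by
    linear_combination (-1) * ((1) * i3 - (0) * i4)
  exact mul_ne_zero hg (mul_ne_zero (by norm_num) ht) w

lemma no_14_22 (ht : t ≠ 0) (hg : g ≠ 0) (i1 : g * (3 * t ^ 2 - t ^ 3) + g' * (-t) = 0) (i2 : g * (-t + t ^ 2) + g' * 0 = 0)
    (i3 : g * (-2 * t) + g' * 1 = 0) (i4 : g * 1 + g' * 1 = 0) : False := by
  have w : g * (3 * t) = 0 := by
    linear_combination (7 - 2 * t) * ((0) * i1 - (-t) * i2) + (3 - 2 * t) * ((1) * i1 - (-t) * i4)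
  exact mul_ne_zero hg (mul_ne_zero (by norm_num) ht) w

lemma no_14_24 (ht : t ≠ 0) (hg : g ≠ 0) (i1 : g * (3 * t ^ 2 - t ^ 3) + g' * (1 - 2 * t) = 0) (i2 : g * (-t + t ^ 2) + g' * 1 = 0)
    (i3 : g * (-2 * t) + g' * (2 - t) = 0) (i4 : g * 1 + g' * 1 = 0) : False := by
  have w : g * (10 * t) = 0 := by
    linear_combination (10 - 3 * t) * ((1) * i1 - (1 - 2 * t) * i2) + (1 - 3 * t) * ((2 - t) * i2 - (1) * i3)
  exact mul_ne_zero hg (mul_ne_zero (by norm_num) ht) w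

lemma no_15_24 (ht : t ≠ 0) (hg : g ≠ 0) (i1 : g * (t ^ 2) + g' * (1 - 2 * t) = 0) (i2 : g * (-t) + g' * 1 = 0)
    (i3 : g * (-t) + g' * (2 - t) = 0) (i4 : g * 1 + g' * 1 = 0) : False := by
  have w : g * (2) = 0 := by
    linear_combination (-1) * ((1) * i3 - (2 - t) * i4)
  exact mul_ne_zero hg (by norm_num) w

lemma no_16_24 (ht : t ≠ 0) (hg : g ≠ 0) (i1 : g * 0 + g' * (1 - 2 * t) = 0) (i2 : g * (-t) + g' * 1 = 0)
    (i3 : g * 0 + g' * (2 - t) = 0) (i4 : g * 1 + g' * 1 = 0) : False := by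
  have w : g * (3 * t) = 0 := by
    linear_combination (-1) * ((1) * i1 - (1 - 2 * t) * i2) + (-2) * ((2 - t) * i2 - (1) * i3)
  exact mul_ne_zero hg (mul_ne_zero (by norm_num) ht) w

lemma no_17_18 (ht : t ≠ 0) (hg : g ≠ 0) (i1 : g * (-2 * t - t ^ 2) + g' * 0 = 0) (i2 : g * (-t + t ^ 2) + g' * 0 = 0)
    (i3 : g * (1 + t) + g' * (-t) = 0) (i4 : g * 1 + g' * 1 = 0) : False := by
  have w : g * (3 * t ^ 2) = 0 := by
    linear_combination (1) * ((-t) * i1 - (0) * i3) + (1) * ((-t) * i2 - (0) * i3)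
  exact mul_ne_zero hg (mul_ne_zero (by norm_num) (pow_ne_zero _ ht)) w

lemma no_17_23 (ht : t ≠ 0) (hg : g ≠ 0) (i1 : g * (-2 * t - t ^ 2) + g' * (-t) = 0) (i2 : g * (-t + t ^ 2) + g' * 0 = 0)
    (i3 : g * (1 + t) + g' * (1 - t) = 0) (i4 : g * 1 + g' * 1 = 0) : False := by
  have w : g * (2 * t) = 0 := by
    linear_combination (1) * ((1) * i3 - (1 - t) * i4)
  exact mul_ne_zero hg (mul_ne_zero (by norm_num) ht) w

lemma no_17_24 (ht : t ≠ 0) (hg : g ≠ 0) (i1 : g * (-2 * t - t ^ 2) + g' * (1 - 2 * t) = 0) (i2 : g * (-t + t ^ 2) + g' * 1 = 0)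
    (i3 : g * (1 + t) + g' * (2 - t) = 0) (i4 : g * 1 + g' * 1 = 0) : False := by
  have w : g * (5) = 0 := by
    linear_combination (-3 + t) * ((1) * i1 - (1 - 2 * t) * i4) + (-2 + t) * ((1) * i2 - (1) * i4)
  exact mul_ne_zero hg (by norm_num) w

end pairs

/-- the orders at `P, 2P, 3P, 4P` -/
def ods (q : ℤ × ℤ × ℤ × ℤ) : ℤ × ℤ × ℤ × ℤ :=
  (q.1 + 2 * q.2.2.1 + q.2.2.2, q.2.1 + 2 * q.2.2.2, q.2.1 + q.2.2.1, q.1)

/-- the degree -/
def dg (q : ℤ × ℤ × ℤ × ℤ) : ℤ := (ods q).1 + (ods q).2.1 + (ods q).2.2.1 + (ods q).2.2.2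

/-- the pairs -/
def prs : List (Fin 25 × Fin 25) :=
  [(0, 1), (2, 4), (3, 5), (6, 12), (7, 11), (8, 9), (13, 14), (13, 17), (13, 20), (13, 21), (13, 24), (14, 17), (14, 19), (14, 22), (14, 24), (15, 24), (16, 24), (17, 18), (17, 23), (17, 24), (1, 0), (4, 2), (5, 3), (12, 6), (11, 7), (9, 8), (14, 13), (17, 13), (20, 13), (21, 13), (24, 13), (17, 14), (19, 14), (22, 14), (24, 14), (24, 15), (24, 16), (18, 17), (23, 17), (24, 17)]

lemma pairs_all : ∀ i j : Fin 25, dg (ex i) = dg (ex j) → (ods (ex i)).1 * (ods (ex j)).1 = 0 →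
    (ods (ex i)).2.1 * (ods (ex j)).2.1 = 0 → (ods (ex i)).2.2.1 * (ods (ex j)).2.2.1 = 0 →
    (ods (ex i)).2.2.2 * (ods (ex j)).2.2.2 = 0 → (i, j) ∈ prs := by
  decide +kernel

lemma mem_ex (q : ℤ × ℤ × ℤ × ℤ) (h : K4C.FC.rg (K4C.FC.ods q)) : ∃ i, ex i = q := by
  obtain ⟨t, ht, rfl⟩ := K4C.FC.mem_tab q h
  have key : ∀ q ∈ K4C.FC.tab.map Prod.fst, ∃ i, ex i = q := by decide +kernel
  exact key _ (List.mem_map_of_mem ht)

end Pool.Agent.UE5
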