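import Pool.Agent.Lib_helper76.UE5.D

/-!
# The unit equation for a point of order five, V: the cases
-/

set_option autoImplicit false

namespace Pool.Agent.UE5

variable {k : Type*} [Field k] {F : Type*} [Field F] [Algebra k F] {t : k} {x y : F}

lemma core2 [CharZero k] (ht : t ≠ 0) (hT : algebraMap k F t ≠ 0) {i j : Fin 25}
    (hpr : (i, j) ∈ prs) {g g' : k} (hg0 : g ≠ 0) (hg0' : g' ≠ 0)
    (i0 : g * cf t i 0 + g' * cf t j 0 - 1 = 0) (i1 : g * cf t i 1 + g' * cf t j 1 = 0)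
    (i2 : g * cf t i 2 + g' * cf t j 2 = 0) (i3 : g * cf t i 3 + g' * cf t j 3 = 0)
    (i4 : g * cf t i 4 + g' * cf t j 4 = 0) :
    (algebraMap k F g * pv x y (cf t i) = x / algebraMap k F t ∨
      algebraMap k F g * pv x y (cf t i) = 1 - x / algebraMap k F t) ∨
    (t = 1 ∧ (algebraMap k F g * pv x y (cf t i) = y ∨
      algebraMap k F g * pv x y (cf t i) = 1 - y)) ∨
    (t = -1 ∧ (algebraMap k F g * pv x y (cf t i) = -(y - algebraMap k F t * x) ∨
      algebraMap k F g * pv x y (cf t i) = 1 - -(y - algebraMap k F t * x))) := by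
  simp only [prs, List.mem_cons, Prod.mk.injEq, List.not_mem_nil, or_false] at hpr
  rcases hpr with ⟨rfl, rfl⟩ | ⟨rfl, rfl⟩ | ⟨rfl, rfl⟩ | ⟨rfl, rfl⟩ | ⟨rfl, rfl⟩ | ⟨rfl, rfl⟩ | ⟨rfl, rfl⟩ | ⟨rfl, rfl⟩ | ⟨rfl, rfl⟩ | ⟨rfl, rfl⟩ | ⟨rfl, rfl⟩ | ⟨rfl, rfl⟩ | ⟨rfl, rfl⟩ | ⟨rfl, rfl⟩ | ⟨rfl, rfl⟩ | ⟨rfl, rfl⟩ | ⟨rfl, rfl⟩ | ⟨rfl, rfl⟩ | ⟨rfl, rfl⟩ | ⟨rfl, rfl⟩ | ⟨rfl, rfl⟩ | ⟨rfl, rfl⟩ | ⟨rfl, rfl⟩ | ⟨rfl, rfl⟩ | ⟨rfl, rfl⟩ | ⟨rfl, rfl⟩ | ⟨rfl, rfl⟩ | ⟨rfl, rfl⟩ | ⟨rfl, rfl⟩ | ⟨rfl, rfl⟩ | ⟨rfl, rfl⟩ | ⟨rfl, rfl⟩ | ⟨rfl, rfl⟩ | ⟨rfl, rfl⟩ | ⟨rfl, rfl⟩ | ⟨rfl, rfl⟩ | ⟨rfl, rfl⟩ | ⟨rfl, rfl⟩ | ⟨rfl, rfl⟩ | ⟨rfl, rfl⟩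
  · left; right
    have i0' : g * -t + g' * 0 - 1 = 0 := i0
    have hgt : algebraMap k F g * algebraMap k F t = -1 := by
      rw [← map_mul, ← map_one (algebraMap k F), ← map_neg]; congr 1; linear_combination -i0'
    have e1 : pv x y (cf t 0) = pv x y (![-t, 1, 0, 0, 0] : Fin 5 → k) := rfl
    rw [e1]
    simp only [pv, Matrix.cons_val, map_neg, map_zero, map_one]
    field_simp
    linear_combination (x - algebraMap k F t) * hgt
  · right; right
    have i0' : g * 0 + g' * -t - 1 = 0 := i0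
    have i1' : g * -t + g' * 1 = 0 := i1
    have i2' : g * 1 + g' * 1 = 0 := i2
    have htt : t = -1 := by
      have : g * (t + 1) = 0 := by linear_combination i2' - i1'
      have := (mul_eq_zero.mp this).resolve_left hg0
      linear_combination this
    subst htt
    refine ⟨rfl, Or.inl ?_⟩
    have hgt : g = -1 := by linear_combination i2' - i0'
    have e1 : pv x y (cf (-1 : k) 2) = pv x y (![0, -(-1), 1, 0, 0] : Fin 5 → k) := rfl
    rw [e1, hgt]
    simp only [pv, Matrix.cons_val, map_neg, map_zero, map_one]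
    ring
  · right; left
    have i0' : g * 0 + g' * -t - 1 = 0 := i0
    have i1' : g * 0 + g' * (1 - t) = 0 := i1
    have i2' : g * 1 + g' * 1 = 0 := i2
    have htt : t = 1 := by
      have : g' * (1 - t) = 0 := by linear_combination i1'
      have := (mul_eq_zero.mp this).resolve_left hg0'
      linear_combination -this
    subst htt
    refine ⟨rfl, Or.inl ?_⟩
    have hgt : g = 1 := by linear_combination i2' + i0'
    have e1 : pv x y (cf (1 : k) 3) = pv x y (![0, 0, 1, 0, 0] : Fin 5 → k) := rfl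
    rw [e1, hgt]
    simp only [pv, Matrix.cons_val, map_zero, map_one]
    ring
  · exact (no_6_12 ht hg0 i1 i2 i3 i4).elim
  · exact (no_7_11 ht hg0 i1 i2 i3 i4).elim
  · exact (no_8_9 ht hg0 i1 i2 i3 i4).elim
  · exact (no_13_14 ht hg0 i1 i2 i3 i4).elim
  · exact (no_13_17 ht hg0 i1 i2 i3 i4).elim
  · exact (no_13_20 ht hg0 i1 i2 i3 i4).elim
  · exact (no_13_21 ht hg0 i1 i2 i3 i4).elim
  · exact (no_13_24 ht hg0 i1 i2 i3 i4).elim
  · exact (no_14_17 ht hg0 i1 i2 i3 i4).elim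
  · exact (no_14_19 ht hg0 i1 i2 i3 i4).elim
  · exact (no_14_22 ht hg0 i1 i2 i3 i4).elim
  · exact (no_14_24 ht hg0 i1 i2 i3 i4).elim
  · exact (no_15_24 ht hg0 i1 i2 i3 i4).elim
  · exact (no_16_24 ht hg0 i1 i2 i3 i4).elim
  · exact (no_17_18 ht hg0 i1 i2 i3 i4).elim
  · exact (no_17_23 ht hg0 i1 i2 i3 i4).elim
  · exact (no_17_24 ht hg0 i1 i2 i3 i4).elim
  · left; left
    have i0' : g * 0 + g' * -t - 1 = 0 := i0
    have i1' : g * 1 + g' * 1 = 0 := i1
    have hgt : algebraMap k F g * algebraMap k F t = 1 := by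
      rw [← map_mul, ← map_one (algebraMap k F)]; congr 1; linear_combination i0' + t * i1'
    have e1 : pv x y (cf t 1) = pv x y (![0, 1, 0, 0, 0] : Fin 5 → k) := rfl
    rw [e1]
    simp only [pv, Matrix.cons_val, map_zero, map_one]
    field_simp
    linear_combination x * hgt
  · right; right
    have i0' : g * -t + g' * 0 - 1 = 0 := i0
    have i1' : g * 1 + g' * -t = 0 := i1
    have i2' : g * 1 + g' * 1 = 0 := i2
    have htt : t = -1 := by
      have : g' * (t + 1) = 0 := by linear_combination i2' - i1'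
      have := (mul_eq_zero.mp this).resolve_left hg0'
      linear_combination this
    subst htt
    refine ⟨rfl, Or.inr ?_⟩
    have hgt : g = 1 := by linear_combination i0'
    have e1 : pv x y (cf (-1 : k) 4) = pv x y (![-(-1), 1, 1, 0, 0] : Fin 5 → k) := rfl
    rw [e1, hgt]
    simp only [pv, Matrix.cons_val, map_neg, map_zero, map_one]
    ring
  · right; left
    have i0' : g * -t + g' * 0 - 1 = 0 := i0
    have i1' : g * (1 - t) + g' * 0 = 0 := i1
    have htt : t = 1 := by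
      have : g * (1 - t) = 0 := by linear_combination i1'
      have := (mul_eq_zero.mp this).resolve_left hg0
      linear_combination -this
    subst htt
    refine ⟨rfl, Or.inr ?_⟩
    have hgt : g = -1 := by linear_combination -i0'
    have e1 : pv x y (cf (1 : k) 5) = pv x y (![-1, 1 - 1, 1, 0, 0] : Fin 5 → k) := rfl
    rw [e1, hgt]
    simp only [pv, Matrix.cons_val, map_neg, map_sub, map_zero, map_one]
    ring
  · exact (no_6_12 ht hg0' ((add_comm _ _).trans i1) ((add_comm _ _).trans i2)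
      ((add_comm _ _).trans i3) ((add_comm _ _).trans i4)).elim
  · exact (no_7_11 ht hg0' ((add_comm _ _).trans i1) ((add_comm _ _).trans i2)
      ((add_comm _ _).trans i3) ((add_comm _ _).trans i4)).elim
  · exact (no_8_9 ht hg0' ((add_comm _ _).trans i1) ((add_comm _ _).trans i2)
      ((add_comm _ _).trans i3) ((add_comm _ _).trans i4)).elim
  · exact (no_13_14 ht hg0' ((add_comm _ _).trans i1) ((add_comm _ _).trans i2)
      ((add_comm _ _).trans i3) ((add_comm _ _).trans i4)).elim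
  · exact (no_13_17 ht hg0' ((add_comm _ _).trans i1) ((add_comm _ _).trans i2)
      ((add_comm _ _).trans i3) ((add_comm _ _).trans i4)).elim
  · exact (no_13_20 ht hg0' ((add_comm _ _).trans i1) ((add_comm _ _).trans i2)
      ((add_comm _ _).trans i3) ((add_comm _ _).trans i4)).elim
  · exact (no_13_21 ht hg0' ((add_comm _ _).trans i1) ((add_comm _ _).trans i2)
      ((add_comm _ _).trans i3) ((add_comm _ _).trans i4)).elim
  · exact (no_13_24 ht hg0' ((add_comm _ _).trans i1) ((add_comm _ _).trans i2)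
      ((add_comm _ _).trans i3) ((add_comm _ _).trans i4)).elim
  · exact (no_14_17 ht hg0' ((add_comm _ _).trans i1) ((add_comm _ _).trans i2)
      ((add_comm _ _).trans i3) ((add_comm _ _).trans i4)).elim
  · exact (no_14_19 ht hg0' ((add_comm _ _).trans i1) ((add_comm _ _).trans i2)
      ((add_comm _ _).trans i3) ((add_comm _ _).trans i4)).elim
  · exact (no_14_22 ht hg0' ((add_comm _ _).trans i1) ((add_comm _ _).trans i2)
      ((add_comm _ _).trans i3) ((add_comm _ _).trans i4)).elim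
  · exact (no_14_24 ht hg0' ((add_comm _ _).trans i1) ((add_comm _ _).trans i2)
      ((add_comm _ _).trans i3) ((add_comm _ _).trans i4)).elim
  · exact (no_15_24 ht hg0' ((add_comm _ _).trans i1) ((add_comm _ _).trans i2)
      ((add_comm _ _).trans i3) ((add_comm _ _).trans i4)).elim
  · exact (no_16_24 ht hg0' ((add_comm _ _).trans i1) ((add_comm _ _).trans i2)
      ((add_comm _ _).trans i3) ((add_comm _ _).trans i4)).elim
  · exact (no_17_18 ht hg0' ((add_comm _ _).trans i1) ((add_comm _ _).trans i2)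
      ((add_comm _ _).trans i3) ((add_comm _ _).trans i4)).elim
  · exact (no_17_23 ht hg0' ((add_comm _ _).trans i1) ((add_comm _ _).trans i2)
      ((add_comm _ _).trans i3) ((add_comm _ _).trans i4)).elim
  · exact (no_17_24 ht hg0' ((add_comm _ _).trans i1) ((add_comm _ _).trans i2)
      ((add_comm _ _).trans i3) ((add_comm _ _).trans i4)).elim

end Pool.Agent.UE5
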