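import Pool.Agent.Lib_helper76.UE5.E1
import Pool.Agent.Lib_helper76.UE5.E2

/-!
# The unit equation for a point of order five, V: poles at one point
-/

set_option autoImplicit false

namespace Pool.Agent.UE5

variable {k : Type*} [Field k] {F : Type*} [Field F] [Algebra k F] {t : k} {x y : F}

lemma mon_qd (ht : t ≠ 0) (h : Gen t x y) (e : Fin 5 → ℤ) {i : Fin 25} (hi : ex i = qd e) :
    mon t x y e = algebraMap k F (t ^ (e 1 + e 2 + e 3 + e 4) * (-1) ^ e 4) *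
      pv x y (cf t i) := by
  rw [mon_mo' ht h, ← ex_spec h i, hi]
  rfl

theorem core [CharZero k] (ht : t ≠ 0) (h : Gen t x y) (e e' : Fin 5 → ℤ) (c c' : k)
    (hc : c ≠ 0) (hc' : c' ≠ 0)
    (hu : algebraMap k F c * mon t x y e + algebraMap k F c' * mon t x y e' = 1)
    (hs : ∀ i, Alt (mm e i) (mm e' i)) (hm : mm e 0 < 0) (hp : ∀ i, i ≠ 0 → 0 ≤ mm e i) :
    (algebraMap k F c * mon t x y e = x / algebraMap k F t ∨
      algebraMap k F c * mon t x y e = 1 - x / algebraMap k F t) ∨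
    (t = 1 ∧ (algebraMap k F c * mon t x y e = y ∨ algebraMap k F c * mon t x y e = 1 - y)) ∨
    (t = -1 ∧ (algebraMap k F c * mon t x y e = -(y - algebraMap k F t * x) ∨
      algebraMap k F c * mon t x y e = 1 - -(y - algebraMap k F t * x))) := by
  have hT : algebraMap k F t ≠ 0 := (_root_.map_ne_zero _).mpr ht
  obtain ⟨i, j, hi, hj, hpr⟩ := core1 e e' hs hm hp
  have m1 := mon_qd ht h e hi
  have m2 := mon_qd ht h e' hj
  obtain ⟨g, hg⟩ : ∃ g : k, g = c * (t ^ (e 1 + e 2 + e 3 + e 4) * (-1) ^ e 4) := ⟨_, rfl⟩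
  obtain ⟨g', hg'⟩ : ∃ g' : k, g' = c' * (t ^ (e' 1 + e' 2 + e' 3 + e' 4) * (-1) ^ e' 4) :=
    ⟨_, rfl⟩
  have f1 : algebraMap k F c * mon t x y e = algebraMap k F g * pv x y (cf t i) := by
    rw [m1, hg, ← mul_assoc, ← map_mul]
  have f2 : algebraMap k F c' * mon t x y e' = algebraMap k F g' * pv x y (cf t j) := by
    rw [m2, hg', ← mul_assoc, ← map_mul]
  have nz : ∀ n m : ℤ, t ^ n * ((-1 : k)) ^ m ≠ 0 := fun n m =>
    mul_ne_zero (zpow_ne_zero _ ht) (zpow_ne_zero _ (neg_ne_zero.mpr one_ne_zero))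
  have hg0 : g ≠ 0 := by rw [hg]; exact mul_ne_zero hc (nz _ _)
  have hg0' : g' ≠ 0 := by rw [hg']; exact mul_ne_zero hc' (nz _ _)
  rw [f1, f2] at hu
  rw [f1]
  obtain ⟨i0, i1, i2, i3, i4⟩ := h.ind (n₀ := g * cf t i 0 + g' * cf t j 0 - 1)
    (n₁ := g * cf t i 1 + g' * cf t j 1) (n₂ := g * cf t i 2 + g' * cf t j 2)
    (n₃ := g * cf t i 3 + g' * cf t j 3) (n₄ := g * cf t i 4 + g' * cf t j 4) (by
      unfold pv at hu
      simp only [map_add, map_sub, map_mul, map_one]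
      linear_combination hu)
  exact core2 ht hT hpr hg0 hg0' i0 i1 i2 i3 i4

end Pool.Agent.UE5
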