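import Pool.Agent.Lib_helper76.UE5.D

/-!
# The unit equation for a point of order five, V: the pairs of exponents
-/

set_option autoImplicit false

namespace Pool.Agent.UE5

/-- the quadruple of exponents -/
def qd (e : Fin 5 → ℤ) : ℤ × ℤ × ℤ × ℤ :=
  (e 0 - 2 * e 1 + e 2, -e 2 + e 4, e 1 - e 2 + e 3 - e 4, e 2 - e 3)

/-- the orders of the quadruple -/
lemma ods_qd (e : Fin 5 → ℤ) : ods (qd e) = (mm e 4, mm e 3, mm e 2, mm e 1) := by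
  have o1 : mm e 1 = e 2 + e 0 - 2 * e 1 := rfl
  have o2 : mm e 2 = e 3 + e 1 - 2 * e 2 := rfl
  have o3 : mm e 3 = e 4 + e 2 - 2 * e 3 := rfl
  have o4 : mm e 4 = e 0 + e 3 - 2 * e 4 := rfl
  rw [o1, o2, o3, o4]
  refine Prod.ext ?_ (Prod.ext ?_ (Prod.ext ?_ ?_)) <;> simp only [ods, qd] <;> ring

lemma mm_sum (e : Fin 5 → ℤ) : mm e 0 + mm e 1 + mm e 2 + mm e 3 + mm e 4 = 0 := by
  have o0 : mm e 0 = e 1 + e 4 - 2 * e 0 := rfl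
  have o1 : mm e 1 = e 2 + e 0 - 2 * e 1 := rfl
  have o2 : mm e 2 = e 3 + e 1 - 2 * e 2 := rfl
  have o3 : mm e 3 = e 4 + e 2 - 2 * e 3 := rfl
  have o4 : mm e 4 = e 0 + e 3 - 2 * e 4 := rfl
  rw [o0, o1, o2, o3, o4]
  ring

lemma Alt.neg' {m m' : ℤ} (h : Alt m m') (h0 : m < 0) : m' = m ∧ -5 ≤ m := by
  unfold Alt at h
  omega

lemma Alt.nn' {m m' : ℤ} (h : Alt m m') (h0 : 0 ≤ m) : 0 ≤ m' ∧ m * m' = 0 := by
  refine ⟨by unfold Alt at h; omega, ?_⟩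
  rw [mul_eq_zero]
  unfold Alt at h
  omega

lemma rg_of {a b c d n : ℤ} (ha : 0 ≤ a) (hb : 0 ≤ b) (hc : 0 ≤ c) (hd : 0 ≤ d) (hn : n < 0)
    (hn' : -5 ≤ n) (hs : n + a + b + c + d = 0) : K4C.FC.rg (d, c, b, a) := by
  refine ⟨hd, hc, hb, ha, ?_, ?_⟩
  · show (1 : ℤ) ≤ d + c + b + a
    omega
  · show d + c + b + a ≤ (5 : ℤ)
    omega

lemma core1 (e e' : Fin 5 → ℤ) (hs : ∀ i, Alt (mm e i) (mm e' i)) (hm : mm e 0 < 0)
    (hp : ∀ i, i ≠ 0 → 0 ≤ mm e i) :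
    ∃ i j : Fin 25, ex i = qd e ∧ ex j = qd e' ∧ (i, j) ∈ prs := by
  obtain ⟨a0, b0⟩ := (hs 0).neg' hm
  obtain ⟨a1, b1⟩ := (hs 1).nn' (hp 1 (by decide))
  obtain ⟨a2, b2⟩ := (hs 2).nn' (hp 2 (by decide))
  obtain ⟨a3, b3⟩ := (hs 3).nn' (hp 3 (by decide))
  obtain ⟨a4, b4⟩ := (hs 4).nn' (hp 4 (by decide))
  have s1 := mm_sum e
  have s2 := mm_sum e'
  have q1 := ods_qd e
  have q2 := ods_qd e'
  have r1 : K4C.FC.rg (K4C.FC.ods (qd e)) := by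
    have h1 : K4C.FC.ods (qd e) = (mm e 4, mm e 3, mm e 2, mm e 1) := q1
    rw [h1]
    exact rg_of (hp 1 (by decide)) (hp 2 (by decide)) (hp 3 (by decide)) (hp 4 (by decide)) hm b0 s1
  have r2 : K4C.FC.rg (K4C.FC.ods (qd e')) := by
    have h1 : K4C.FC.ods (qd e') = (mm e' 4, mm e' 3, mm e' 2, mm e' 1) := q2
    rw [h1]
    rw [a0] at s2
    exact rg_of a1 a2 a3 a4 hm b0 s2
  obtain ⟨i, hi⟩ := mem_ex _ r1
  obtain ⟨j, hj⟩ := mem_ex _ r2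
  refine ⟨i, j, hi, hj, ?_⟩
  apply pairs_all i j
  · rw [hi, hj]
    unfold dg
    rw [q1, q2]
    show mm e 4 + mm e 3 + mm e 2 + mm e 1 = mm e' 4 + mm e' 3 + mm e' 2 + mm e' 1
    rw [a0] at s2
    linarith
  · rw [hi, hj, q1, q2]
    exact b4
  · rw [hi, hj, q1, q2]
    exact b3
  · rw [hi, hj, q1, q2]
    exact b2
  · rw [hi, hj, q1, q2]
    exact b1

end Pool.Agent.UE5
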