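import Mathlib

/-!
# The six functions of a cross-ratio, and a pigeonhole statement
-/

set_option autoImplicit false

namespace Pool.Agent.UE5

variable {F : Type*} [Field F]

/-- `f` is one of the six functions `z, 1 - z, 1 / z, 1 - 1 / z, 1 / (1 - z), z / (z - 1)` -/
def S3 (f z : F) : Prop :=
  f = z ∨ f = 1 - z ∨ f = 1 / z ∨ f = 1 - 1 / z ∨ f = 1 / (1 - z) ∨ f = z / (z - 1)

lemma S3.inv {f z : F} (hf0 : f ≠ 0) (hf1 : f ≠ 1) (h : S3 f⁻¹ z) : S3 f z := by
  have e : f = (f⁻¹)⁻¹ := (inv_inv f).symm
  have hi0 : f⁻¹ ≠ 0 := inv_ne_zero hf0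
  have hi1 : f⁻¹ ≠ 1 := fun h => hf1 (by rw [e, h, inv_one])
  generalize hg : f⁻¹ = g at *
  rw [e]
  rcases h with rfl | rfl | rfl | rfl | rfl | rfl
  · right; right; left; rw [one_div]
  · right; right; right; right; left; rw [one_div]
  · left; rw [one_div, inv_inv]
  · right; right; right; right; right
    have hz : z ≠ 0 := by
      rintro rfl
      simp at hi1
    have hz1 : z - 1 ≠ 0 := by
      intro h
      have : z = 1 := by linear_combination h
      subst this
      simp at hi0
    field_simp
  · right; left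
    rw [one_div, inv_inv]
  · right; right; right; left
    have hz : z ≠ 0 := by
      rintro rfl
      simp at hi0
    rw [inv_div]
    field_simp

lemma S3.sub {f z : F} (hf0 : f ≠ 0) (hf1 : f ≠ 1) (h : S3 (1 - f) z) : S3 f z := by
  have e : f = 1 - (1 - f) := by ring
  generalize hg : 1 - f = g at *
  have hg1 : g ≠ 1 := by
    rintro rfl
    apply hf0
    rw [e]; ring
  have hg0 : g ≠ 0 := by
    rintro rfl
    apply hf1
    rw [e]; ring
  rw [e]
  rcases h with rfl | rfl | rfl | rfl | rfl | rfl
  · right; left; rfl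
  · left; ring
  · right; right; right; left; rfl
  · right; right; left; ring
  · right; right; right; right; right
    have hz : 1 - z ≠ 0 := by
      intro h
      rw [h] at hg0
      simp at hg0
    have hz' : z - 1 ≠ 0 := by
      intro h
      apply hz
      linear_combination -h
    field_simp
    ring
  · right; right; right; right; left
    have hz : z - 1 ≠ 0 := by
      intro h
      rw [h] at hg0
      simp at hg0
    have hz' : 1 - z ≠ 0 := by
      intro h
      apply hz
      linear_combination -h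
    field_simp
    ring

lemma pig : ∀ s : Fin 5 → Fin 4, (∃ i, s i = 1) → (∃ i, s i = 2) → (∃ i, s i = 3) →
    ∃ i0, (s i0 = 1 ∧ ∀ j, j ≠ i0 → s j ≠ 1) ∨ (s i0 = 2 ∧ ∀ j, j ≠ i0 → s j ≠ 2) ∨
      (s i0 = 3 ∧ ∀ j, j ≠ i0 → s j ≠ 3) := by
  decide +kernel

end Pool.Agent.UE5
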