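import Pool.Agent.Lib_helper76.UE5.E
import Pool.Agent.Lib_helper76.UE5.S3

/-!
# The unit equation for a point of order five, VI: all solutions, all `t`
-/

set_option autoImplicit false

namespace Pool.Agent.UE5


variable {k : Type*} [Field k] {F : Type*} [Field F] [Algebra k F] {t : k} {x y : F}

lemma rot (ht : t ≠ 0) (h : Gen t x y) (n : ℕ) :
    ∃ x' y' : F, Gen t x' y' ∧ ∀ j : Fin 5, X t x' y' j = X t x y (j + (Fin.ofNat 5 n)) := by
  induction n with
  | zero =>
    refine ⟨x, y, h, fun j => ?_⟩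
    congr 1
    revert j
    decide
  | succ n ih =>
    obtain ⟨x', y', h', hX⟩ := ih
    refine ⟨_, _, h'.next ht, fun j => ?_⟩
    rw [X_next ht h', hX]
    congr 1
    apply Fin.ext
    simp only [Fin.val_add, Fin.ofNat, Fin.val_one]
    omega

lemma mm_rot (e : Fin 5 → ℤ) (i j : Fin 5) : mm (fun l => e (l + i)) j = mm e (j + i) := by
  have h1 : ∀ i j : Fin 5, j + 1 + i = j + i + 1 := by decide
  have h2 : ∀ i j : Fin 5, j - 1 + i = j + i - 1 := by decide
  show e (j + 1 + i) + e (j - 1 + i) - 2 * e (j + i) = _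
  rw [h1, h2]
  rfl

lemma mon_rot {x y x' y' : F} (i : Fin 5) (h : ∀ j, X t x' y' j = X t x y (j + i))
    (e : Fin 5 → ℤ) : mon t x' y' (fun l => e (l + i)) = mon t x y e := by
  unfold mon
  simp only [h]
  exact Fintype.prod_equiv (Equiv.addRight i) _ (fun l => X t x y l ^ e l) (fun l => rfl)

lemma mon_neg (x y : F) (e : Fin 5 → ℤ) : mon t x y (fun i => -e i) = (mon t x y e)⁻¹ := by
  unfold mon
  rw [← Finset.prod_inv_distrib]
  exact Finset.prod_congr rfl fun i _ => zpow_neg _ _

lemma mon_sub (ht : t ≠ 0) (h : Gen t x y) (e e' : Fin 5 → ℤ) :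
    mon t x y (fun i => e' i - e i) = mon t x y e' / mon t x y e := by
  unfold mon
  rw [← Finset.prod_div_distrib]
  exact Finset.prod_congr rfl fun i _ => zpow_sub₀ (X_ne ht h i) _ _

/-- the solutions: `x(z + iP)/t` for every `t`, and two further families for `t = 1`, `t = -1` -/
def Sol (t : k) (x y f : F) (i : Fin 5) : Prop :=
  S3 f (X t x y i / algebraMap k F t) ∨ (t = 1 ∧ S3 f (X t x y (i + 1) * X t x y i ^ 2)) ∨
    (t = -1 ∧ S3 f (-(X t x y (i + 1) * X t x y i ^ 2 / X t x y (i + 3))))

lemma Sol.inv {f : F} {i : Fin 5} (hf0 : f ≠ 0) (hf1 : f ≠ 1) (h : Sol t x y f⁻¹ i) :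
    Sol t x y f i := by
  rcases h with h | ⟨ht, h⟩ | ⟨ht, h⟩
  · exact Or.inl (S3.inv hf0 hf1 h)
  · exact Or.inr (Or.inl ⟨ht, S3.inv hf0 hf1 h⟩)
  · exact Or.inr (Or.inr ⟨ht, S3.inv hf0 hf1 h⟩)

lemma Sol.sub {f : F} {i : Fin 5} (hf0 : f ≠ 0) (hf1 : f ≠ 1) (h : Sol t x y (1 - f) i) :
    Sol t x y f i := by
  rcases h with h | ⟨ht, h⟩ | ⟨ht, h⟩
  · exact Or.inl (S3.sub hf0 hf1 h)
  · exact Or.inr (Or.inl ⟨ht, S3.sub hf0 hf1 h⟩)
  · exact Or.inr (Or.inr ⟨ht, S3.sub hf0 hf1 h⟩)

/-- one pole -/
lemma one_pole [CharZero k] (ht : t ≠ 0) (h : Gen t x y) (e e' : Fin 5 → ℤ) (c c' : k)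
    (hc : c ≠ 0) (hc' : c' ≠ 0)
    (hu : algebraMap k F c * mon t x y e + algebraMap k F c' * mon t x y e' = 1)
    (hnc : ¬ ∀ i j, e i = e j) (i : Fin 5)
    (hm : mm e i < 0) (hp : ∀ j, j ≠ i → 0 ≤ mm e j) :
    Sol t x y (algebraMap k F c * mon t x y e) i := by
  obtain ⟨x', y', h', hX⟩ := rot ht h i.val
  have hi : Fin.ofNat 5 i.val = i := by
    apply Fin.ext
    simp only [Fin.ofNat]
    exact Nat.mod_eq_of_lt i.isLt
  rw [hi] at hX
  have e1 := mon_rot i hX e
  have e2 := mon_rot i hX e'
  have hh : algebraMap k F c * mon t x' y' (fun l => e (l + i)) +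
      algebraMap k F c' * mon t x' y' (fun l => e' (l + i)) = 1 := by rw [e1, e2]; exact hu
  have hs := (bound ht h' hc hc' hh).resolve_left (by
    intro hall
    apply hnc
    intro a b
    have := hall (a - i) (b - i)
    simpa using this)
  have hc0 := core ht h' _ _ c c' hc hc' hh hs (by
      rw [mm_rot]
      have : (0 : Fin 5) + i = i := zero_add i
      rw [this]; exact hm) (by
      intro j hj
      rw [mm_rot]
      apply hp
      intro h0
      apply hj
      have : ∀ i j : Fin 5, j + i = i → j = 0 := by decide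
      exact this i j h0)
  rw [e1] at hc0
  have hT : algebraMap k F t ≠ 0 := (_root_.map_ne_zero _).mpr ht
  have g0 := h'.x_ne
  have g1 := h'.y_ne
  have g2 := h'.ytx_ne
  have z0 : x' = X t x y i := by
    have := hX 0
    rwa [show (0 : Fin 5) + i = i from zero_add i] at this
  have z1 : algebraMap k F t * y' / x' ^ 2 = X t x y (i + 1) := by
    have := hX 1
    rwa [show (1 : Fin 5) + i = i + 1 from add_comm 1 i] at this
  have z3 : algebraMap k F t * y' / (y' - algebraMap k F t * x') = X t x y (i + 3) := by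
    have := hX 3
    rwa [show (3 : Fin 5) + i = i + 3 from add_comm 3 i] at this
  rcases hc0 with (h1 | h1) | ⟨rfl, h1 | h1⟩ | ⟨rfl, h1 | h1⟩
  · left; left; rw [h1, z0]
  · left; right; left; rw [h1, z0]
  · right; left
    refine ⟨rfl, Or.inl ?_⟩
    rw [h1, ← z1, ← z0, map_one]
    field_simp
  · right; left
    refine ⟨rfl, Or.inr (Or.inl ?_)⟩
    rw [h1, ← z1, ← z0, map_one]
    field_simp
  · right; right
    refine ⟨rfl, Or.inl ?_⟩
    rw [h1, ← z1, ← z0, ← z3]
    field_simp
  · right; right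
    refine ⟨rfl, Or.inr (Or.inl ?_)⟩
    rw [h1, ← z1, ← z0, ← z3]
    field_simp

/-- **the unit equation for a point of order five**: all solutions, for every curve -/
theorem unit_eq [CharZero k] (ht : t ≠ 0) (h : Gen t x y) (e e' : Fin 5 → ℤ) (c c' : k)
    (hc : c ≠ 0) (hc' : c' ≠ 0)
    (hu : algebraMap k F c * mon t x y e + algebraMap k F c' * mon t x y e' = 1) :
    (∃ a : k, algebraMap k F c * mon t x y e = algebraMap k F a) ∨
      ∃ i : Fin 5, Sol t x y (algebraMap k F c * mon t x y e) i := by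
  by_cases hnc : ∀ i j, e i = e j
  · left
    have hT : algebraMap k F t ≠ 0 := (_root_.map_ne_zero _).mpr ht
    have he : mon t x y e = (∏ i, X t x y i) ^ (e 0) := by
      unfold mon
      rw [← Finset.prod_zpow]
      exact Finset.prod_congr rfl fun i _ => by rw [hnc i 0]
    refine ⟨c * (-t ^ 4) ^ e 0, ?_⟩
    rw [he, X_prod ht h, map_mul, map_zpow₀, map_neg, map_pow]
  right
  have hs := (bound ht h hc hc' hu).resolve_left hnc
  have o0 : mm e 0 = e 1 + e 4 - 2 * e 0 := rfl
  have o1 : mm e 1 = e 2 + e 0 - 2 * e 1 := rfl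
  have o2 : mm e 2 = e 3 + e 1 - 2 * e 2 := rfl
  have o3 : mm e 3 = e 4 + e 2 - 2 * e 3 := rfl
  have o4 : mm e 4 = e 0 + e 3 - 2 * e 4 := rfl
  have o0' : mm e' 0 = e' 1 + e' 4 - 2 * e' 0 := rfl
  have o1' : mm e' 1 = e' 2 + e' 0 - 2 * e' 1 := rfl
  have o2' : mm e' 2 = e' 3 + e' 1 - 2 * e' 2 := rfl
  have o3' : mm e' 3 = e' 4 + e' 2 - 2 * e' 3 := rfl
  have o4' : mm e' 4 = e' 0 + e' 3 - 2 * e' 4 := rfl
  have hcst : ¬ (mm e 0 = 0 ∧ mm e 1 = 0 ∧ mm e 2 = 0 ∧ mm e 3 = 0 ∧ mm e 4 = 0) := by
    rintro ⟨a0, a1, a2, a3, a4⟩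
    apply hnc
    have b1 : e 1 = e 0 := by omega
    have b2 : e 2 = e 0 := by omega
    have b3 : e 3 = e 0 := by omega
    have b4 : e 4 = e 0 := by omega
    intro i j
    fin_cases i <;> fin_cases j <;> simp <;> omega
  have ex3 : ∃ i, mm e i < 0 := by
    by_contra hne
    push Not at hne
    have := hne 0
    have := hne 1
    have := hne 2
    have := hne 3
    have := hne 4
    apply hcst
    refine ⟨?_, ?_, ?_, ?_, ?_⟩ <;> omega
  have ex1 : ∃ i, 0 < mm e i := by
    by_contra hne
    push Not at hne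
    have := hne 0
    have := hne 1
    have := hne 2
    have := hne 3
    have := hne 4
    apply hcst
    refine ⟨?_, ?_, ?_, ?_, ?_⟩ <;> omega
  have ex2 : ∃ i, 0 < mm e' i := by
    obtain ⟨j, hj⟩ := ex3
    have hj' : mm e' j < 0 := by
      have := hs j
      unfold Alt at this
      omega
    by_contra hne
    push Not at hne
    have a0 := hne 0
    have a1 := hne 1
    have a2 := hne 2
    have a3 := hne 3
    have a4 := hne 4
    have b0 : mm e' 0 = 0 := by omega
    have b1 : mm e' 1 = 0 := by omega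
    have b2 : mm e' 2 = 0 := by omega
    have b3 : mm e' 3 = 0 := by omega
    have b4 : mm e' 4 = 0 := by omega
    fin_cases j
    · exact absurd b0 (ne_of_lt hj')
    · exact absurd b1 (ne_of_lt hj')
    · exact absurd b2 (ne_of_lt hj')
    · exact absurd b3 (ne_of_lt hj')
    · exact absurd b4 (ne_of_lt hj')
  -- the states
  let s : Fin 5 → Fin 4 := fun i =>
    if mm e i < 0 then 3 else if 0 < mm e i then 1 else if 0 < mm e' i then 2 else 0
  have s3 : ∀ i, s i = 3 ↔ mm e i < 0 := by
    intro i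
    by_cases u : mm e i < 0
    · simp [s, u]
    · by_cases u1 : 0 < mm e i
      · simp [s, u, u1]
      · by_cases u2 : 0 < mm e' i <;> simp [s, u, u1, u2]
  have s1 : ∀ i, s i = 1 ↔ 0 < mm e i := by
    intro i
    by_cases u : mm e i < 0
    · have : ¬ 0 < mm e i := by omega
      simp [s, u, this]
    · by_cases u1 : 0 < mm e i
      · simp [s, u, u1]
      · by_cases u2 : 0 < mm e' i <;> simp [s, u, u1, u2]
  have s2 : ∀ i, s i = 2 ↔ 0 < mm e' i := by
    intro i
    have hi := hs i
    unfold Alt at hi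
    by_cases u : mm e i < 0
    · have : ¬ 0 < mm e' i := by omega
      simp [s, u, this]
    · by_cases u1 : 0 < mm e i
      · have : ¬ 0 < mm e' i := by omega
        simp [s, u, u1, this]
      · by_cases u2 : 0 < mm e' i <;> simp [s, u, u1, u2]
  set f := algebraMap k F c * mon t x y e with hf
  set g := algebraMap k F c' * mon t x y e' with hg
  have cF : algebraMap k F c ≠ 0 := by
    rw [Ne, map_eq_zero]; exact hc
  have cF' : algebraMap k F c' ≠ 0 := by
    rw [Ne, map_eq_zero]; exact hc'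
  have f0 : f ≠ 0 := mul_ne_zero cF (mon_ne ht h e)
  have g0 : g ≠ 0 := mul_ne_zero cF' (mon_ne ht h e')
  have f1 : f ≠ 1 := by
    intro h'
    apply g0
    linear_combination hu - h'
  have g1 : g ≠ 1 := by
    intro h'
    apply f0
    linear_combination hu - h'
  have hnc' : ¬ ∀ i j, e' i = e' j := by
    intro hall
    obtain ⟨i, hi⟩ := ex2
    have hz : mm e' i = 0 := by
      show e' (i + 1) + e' (i - 1) - 2 * e' i = 0
      rw [hall (i + 1) i, hall (i - 1) i]; ring
    omega
  obtain ⟨i, hi⟩ := pig s (by obtain ⟨i, hi⟩ := ex1; exact ⟨i, (s1 i).mpr hi⟩)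
    (by obtain ⟨i, hi⟩ := ex2; exact ⟨i, (s2 i).mpr hi⟩)
    (by obtain ⟨i, hi⟩ := ex3; exact ⟨i, (s3 i).mpr hi⟩)
  refine ⟨i, ?_⟩
  rcases hi with ⟨hi, hj⟩ | ⟨hi, hj⟩ | ⟨hi, hj⟩
  · -- one zero of `f`
    have hh : algebraMap k F c⁻¹ * mon t x y (fun l => -e l) +
        algebraMap k F (-(c' / c)) * mon t x y (fun l => e' l - e l) = 1 := by
      rw [mon_neg, mon_sub ht h, map_inv₀, map_neg, map_div₀]
      have : (algebraMap k F c)⁻¹ * (mon t x y e)⁻¹ +
          -(algebraMap k F c' / algebraMap k F c) * (mon t x y e' / mon t x y e) =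
          (1 - g) / f := by
        have := mon_ne ht h e
        rw [hf, hg]
        field_simp
        ring
      rw [this]
      have : 1 - g = f := by linear_combination -hu
      rw [this, div_self f0]
    have r := one_pole ht h _ _ _ _ (inv_ne_zero hc)
      (neg_ne_zero.mpr (div_ne_zero hc' hc)) hh (by
        intro hall
        apply hnc
        intro a b
        have := hall a b
        omega) i (by
        have := (s1 i).mp hi
        show -e (i + 1) + -e (i - 1) - 2 * -e i < 0
        have o : mm e i = e (i + 1) + e (i - 1) - 2 * e i := rfl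
        omega) (by
        intro j hji
        have := mt (s1 j).mpr (hj j hji)
        show 0 ≤ -e (j + 1) + -e (j - 1) - 2 * -e j
        have o : mm e j = e (j + 1) + e (j - 1) - 2 * e j := rfl
        omega)
    have fe : algebraMap k F c⁻¹ * mon t x y (fun l => -e l) = f⁻¹ := by
      rw [mon_neg, map_inv₀, hf, mul_inv]
    rw [fe] at r
    exact r.inv f0 f1
  · -- one zero of `g`
    have hh : algebraMap k F c'⁻¹ * mon t x y (fun l => -e' l) +
        algebraMap k F (-(c / c')) * mon t x y (fun l => e l - e' l) = 1 := by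
      rw [mon_neg, mon_sub ht h, map_inv₀, map_neg, map_div₀]
      have : (algebraMap k F c')⁻¹ * (mon t x y e')⁻¹ +
          -(algebraMap k F c / algebraMap k F c') * (mon t x y e / mon t x y e') =
          (1 - f) / g := by
        have := mon_ne ht h e'
        rw [hf, hg]
        field_simp
        ring
      rw [this]
      have : 1 - f = g := by linear_combination -hu
      rw [this, div_self g0]
    have r := one_pole ht h _ _ _ _ (inv_ne_zero hc')
      (neg_ne_zero.mpr (div_ne_zero hc hc')) hh (by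
        intro hall
        apply hnc'
        intro a b
        have := hall a b
        omega) i (by
        have := (s2 i).mp hi
        show -e' (i + 1) + -e' (i - 1) - 2 * -e' i < 0
        have o : mm e' i = e' (i + 1) + e' (i - 1) - 2 * e' i := rfl
        omega) (by
        intro j hji
        have := mt (s2 j).mpr (hj j hji)
        show 0 ≤ -e' (j + 1) + -e' (j - 1) - 2 * -e' j
        have o : mm e' j = e' (j + 1) + e' (j - 1) - 2 * e' j := rfl
        omega)
    have fe : algebraMap k F c'⁻¹ * mon t x y (fun l => -e' l) = g⁻¹ := by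
      rw [mon_neg, map_inv₀, hg, mul_inv]
    have eg : g = 1 - f := by linear_combination hu
    rw [fe] at r
    have r2 := r.inv g0 g1
    rw [eg] at r2
    exact r2.sub f0 f1
  · -- one pole
    exact one_pole ht h e e' c c' hc hc' hu hnc i ((s3 i).mp hi) (by
      intro j hji
      have := mt (s3 j).mpr (hj j hji)
      omega)

end Pool.Agent.UE5
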